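import Mathlib

/-!
# Sharp version: definitions

`Fold C₁ a β φ g ζ`: one fold on the closed half plane `Re z ≥ 0` with parameter `a`.
`Seq C₁ Λ δ b φ g ζ a s M`: folds at the scales `s n`, with parameter `a n = Λ (M n) (s n)`.
-/

open Complex Set Filter Topology

namespace Pool.Agent.H50.IS

structure Fold (C₁ a : ℝ) (β φ g : ℂ → ℂ) (ζ : ℂ) : Prop where
  dβ : ∀ z, 0 ≤ z.re → HasDerivAt β (φ z) z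
  dg : ∀ z, 0 ≤ z.re → HasDerivAt g (exp (β z)) z
  norm : ∀ z, 0 ≤ z.re → 2 * z.re * ‖φ z‖ ≤ 1 + C₁ * a * z.re
  φ_le : ∀ z, 0 ≤ z.re → ‖φ z‖ ≤ C₁ / a ^ 2
  φ_far : ∀ z, 0 ≤ z.re → C₁ ≤ ‖z‖ → ‖φ z‖ ≤ C₁ / ‖z‖ ^ 2
  β_far : ∀ z, 0 ≤ z.re → C₁ ≤ ‖z‖ → ‖β z‖ ≤ C₁ / ‖z‖
  exp_le : ∀ z, 0 ≤ z.re → ‖exp (β z)‖ ≤ C₁ / a
  exp_re : ∀ z, 0 < z.re → ‖exp (β z)‖ ≤ C₁ * (1 + 1 / Real.sqrt z.re)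
  ζ_re : a ^ 2 / C₁ ≤ ζ.re
  ζ_norm : ‖ζ‖ ≤ C₁
  exp_ζ : 1 / (C₁ * a) ≤ ‖exp (β ζ)‖
  hg : g ζ = g 0
  path : ∀ p : ℝ, 0 < p → p ≤ a ^ 3 → ∃ γ γ' : ℝ → ℂ, γ 0 = (p : ℂ) ∧ γ 1 = ζ ∧
    ∀ t ∈ Icc (0 : ℝ) 1, HasDerivAt γ (γ' t) t ∧ p / 2 ≤ (γ t).re ∧ ‖γ t‖ ≤ C₁ ∧
      ‖exp (β (γ t))‖ * ‖γ' t‖ ≤ C₁

/-- The inner end of the region of scale `n`. -/
noncomputable def y (a s : ℕ → ℝ) (n : ℕ) : ℝ := s n * a n ^ 3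

/-- Folds at the scales `s n`. -/
structure Seq (C₁ Λ δ : ℝ) (b φ g : ℕ → ℂ → ℂ) (ζ : ℕ → ℂ) (a s M : ℕ → ℝ) : Prop where
  fold : ∀ n, Fold C₁ (a n) (b n) (φ n) (g n) (ζ n)
  s_pos : ∀ n, 0 < s n
  a_pos : ∀ n, 0 < a n
  a_le : ∀ n, a n ≤ δ
  s_le : ∀ n, s n ≤ δ
  M_ge : ∀ n, 1 ≤ M n
  a_eq : ∀ n, a n = Λ * M n * s n
  M_succ : ∀ n, M (n + 1) = M n + C₁ / (a n ^ 2 * s n)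
  s_succ : ∀ n, s (n + 1) ≤ y a s n ^ 2

/-- The sum over all scales. -/
noncomputable def B (b : ℕ → ℂ → ℂ) (s : ℕ → ℝ) (z : ℂ) : ℂ := ∑' m, b m (z / (s m : ℂ))

/-- The derivative of the sum. -/
noncomputable def B' (φ : ℕ → ℂ → ℂ) (s : ℕ → ℝ) (z : ℂ) : ℂ :=
  ∑' m, φ m (z / (s m : ℂ)) / (s m : ℂ)

/-- The constant seen at scale `n`. -/
noncomputable def K (b : ℕ → ℂ → ℂ) (n : ℕ) : ℂ := ∑ m ∈ Finset.range n, b m 0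

end Pool.Agent.H50.IS
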