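import Mathlib
import Pool.Agent.H50.IS.Defs

/-! # Sharp version: existence of the scales -/

open Complex Set Filter Topology

namespace Pool.Agent.H50.IS

/-- one step of the recursion for the pairs `(s, M)` -/
noncomputable def stp (C₁ Λ : ℝ) (m : ℝ → ℝ) (p : ℝ × ℝ) : ℝ × ℝ :=
  (min (m (p.2 + C₁ / ((Λ * p.2 * p.1) ^ 2 * p.1))) ((p.1 * (Λ * p.2 * p.1) ^ 3) ^ 2),
    p.2 + C₁ / ((Λ * p.2 * p.1) ^ 2 * p.1))

/-- the pairs `(s, M)` -/
noncomputable def prs (C₁ Λ : ℝ) (m : ℝ → ℝ) (M₀ : ℝ) : ℕ → ℝ × ℝ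
  | 0 => (m M₀, M₀)
  | (n + 1) => stp C₁ Λ m (prs C₁ Λ m M₀ n)

theorem exists_seq {C₁ a₀ : ℝ} (hC₁ : 100 ≤ C₁) (ha₀ : 0 < a₀)
    (hF : ∀ a, 0 < a → a ≤ a₀ → ∃ (β φ g : ℂ → ℂ) (ζ : ℂ), Fold C₁ a β φ g ζ)
    {Λ δ R C₃ M₀ : ℝ} (hΛ : 1 ≤ Λ) (hδ : 0 < δ) (hR : 0 < R) (hC₃ : 0 < C₃) (hM₀ : 1 ≤ M₀)
    {lam : ℝ → ℝ} (hlam : Tendsto lam (𝓝[>] 0) atTop) :
    ∃ (b φ g : ℕ → ℂ → ℂ) (ζ : ℕ → ℂ) (a s M : ℕ → ℝ), Seq C₁ Λ δ b φ g ζ a s M ∧ M 0 = M₀ ∧
      ∀ n v, 0 < v → v ≤ R * s n → C₃ * M n ≤ lam v := by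
  have hτ' : ∀ x : ℝ, ∃ τ : ℝ, 0 < τ ∧ ∀ v, 0 < v → v < τ → C₃ * x ≤ lam v := by
    intro x
    have hev := hlam.eventually_ge_atTop (C₃ * x)
    obtain ⟨κ, hκ0, hκ⟩ := mem_nhdsGT_iff_exists_Ioo_subset.1 hev
    exact ⟨κ, hκ0, fun v hv hvk => hκ ⟨hv, hvk⟩⟩
  choose τ hτ0 hτ using hτ'
  set m : ℝ → ℝ := fun x => min (min δ (min δ a₀ / (Λ * x))) (τ x / (2 * R)) with hm
  have hΛ0 : 0 < Λ := by linarith
  have hmin : 0 < min δ a₀ := lt_min hδ ha₀
  have hmpos : ∀ x, 1 ≤ x → 0 < m x := by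
    intro x hx
    have h1 := hτ0 x
    have h2 : 0 < x := by linarith
    exact lt_min (lt_min hδ (by positivity)) (by positivity)
  set s : ℕ → ℝ := fun n => (prs C₁ Λ m M₀ n).1 with hs
  set M : ℕ → ℝ := fun n => (prs C₁ Λ m M₀ n).2 with hM
  set a : ℕ → ℝ := fun n => Λ * M n * s n with ha
  have hMs : ∀ n, M (n + 1) = M n + C₁ / (a n ^ 2 * s n) := fun n => rfl
  have hss : ∀ n, s (n + 1) = min (m (M (n + 1))) ((s n * a n ^ 3) ^ 2) := fun n => rfl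
  have hinv : ∀ n, 0 < s n ∧ 1 ≤ M n := by
    intro n
    induction n with
    | zero => exact ⟨hmpos M₀ hM₀, hM₀⟩
    | succ n ih =>
      obtain ⟨h1, h2⟩ := ih
      have ha0 : 0 < a n := by
        have : 0 < M n := by linarith
        simp only [ha]
        positivity
      have h3 : 1 ≤ M (n + 1) := by
        rw [hMs]
        have : 0 < C₁ / (a n ^ 2 * s n) := by
          have : 0 < C₁ := by linarith
          positivity
        linarith
      refine ⟨?_, h3⟩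
      rw [hss]
      exact lt_min (hmpos _ h3) (by positivity)
  have hsm : ∀ n, s n ≤ m (M n) := by
    intro n
    cases n with
    | zero => exact le_rfl
    | succ n => rw [hss]; exact min_le_left _ _
  have hs1 : ∀ n, s n ≤ δ := fun n =>
    (hsm n).trans ((min_le_left _ _).trans (min_le_left _ _))
  have hs2 : ∀ n, a n ≤ min δ a₀ := fun n => by
    have h1 : s n ≤ min δ a₀ / (Λ * M n) :=
      (hsm n).trans ((min_le_left _ _).trans (min_le_right _ _))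
    have h2 : 0 < Λ * M n := by
      have := (hinv n).2
      have : 0 < M n := by linarith
      positivity
    rw [le_div_iff₀ h2] at h1
    simp only [ha]
    linarith
  have hs3 : ∀ n, s n ≤ τ (M n) / (2 * R) := fun n => (hsm n).trans (min_le_right _ _)
  have ha0 : ∀ n, 0 < a n := fun n => by
    have h1 := (hinv n).1
    have h2 := (hinv n).2
    have : 0 < M n := by linarith
    simp only [ha]
    positivity
  choose b φ g ζ hfold using fun n => hF (a n) (ha0 n) ((hs2 n).trans (min_le_right _ _))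
  refine ⟨b, φ, g, ζ, a, s, M, ⟨hfold, fun n => (hinv n).1, ha0,
    fun n => (hs2 n).trans (min_le_left _ _), hs1, fun n => (hinv n).2, fun n => rfl, hMs,
    fun n => ?_⟩, rfl, ?_⟩
  · rw [hss]
    exact min_le_right _ _
  · intro n v hv hvn
    refine hτ (M n) v hv (lt_of_le_of_lt hvn ?_)
    have h1 := hs3 n
    rw [le_div_iff₀ (by positivity)] at h1
    have h2 := hτ0 (M n)
    nlinarith

end Pool.Agent.H50.IS
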