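import Pool.Agent.H50.IV.Fold
import Pool.Agent.H50.IR.Base
import Pool.Agent.H50.IS.Defs

/-!
# The sharp fold (F): the two points
-/

open Complex Set Filter Topology
open Pool.Agent.H51.Becker

namespace Pool.Agent.H50.IS

open Pool.Agent.H50.IV

/-- the two end points -/
noncomputable def T1 (a : ℝ) : ℂ := ((Real.pi - 3 * a : ℝ) : ℂ) * I
noncomputable def T2 (a : ℝ) : ℂ := ((-(Real.pi - a) : ℝ) : ℂ) * I

/-- the parameter `e` -/
noncomputable def mm (a : ℝ) : ℝ := Real.sin (2 * a) / (Real.pi - 2 * a)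
noncomputable def ee (a : ℝ) : ℂ := (mm a : ℂ) * exp (I * ((-a : ℝ) : ℂ))

lemma exp_mul_I_re (θ : ℝ) : (exp ((θ : ℂ) * I)).re = Real.cos θ := by
  rw [exp_ofReal_mul_I_re]

lemma exp_mul_I_im (θ : ℝ) : (exp ((θ : ℂ) * I)).im = Real.sin θ := by
  rw [exp_ofReal_mul_I_im]

lemma cos_sub_cos3 (a : ℝ) : Real.cos a - Real.cos (3 * a) = 2 * Real.sin (2 * a) * Real.sin a := by
  have h1 : Real.cos (3 * a) = Real.cos (2 * a + a) := by ring_nf
  have h2 : Real.cos a = Real.cos (2 * a - a) := by ring_nf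
  rw [h1, h2, Real.cos_add, Real.cos_sub]
  ring_nf

lemma sin_add_sin3 (a : ℝ) : Real.sin (3 * a) + Real.sin a = 2 * Real.sin (2 * a) * Real.cos a := by
  have h1 : Real.sin (3 * a) = Real.sin (2 * a + a) := by ring_nf
  have h2 : Real.sin a = Real.sin (2 * a - a) := by ring_nf
  rw [h1]
  conv_lhs => rw [h2]
  rw [Real.sin_add, Real.sin_sub]
  ring

lemma diff_exp {a : ℝ} (ha : 0 < a) (ha' : a ≤ 1 / 50) :
    exp (T1 a) - exp (T2 a) = ee a * (T1 a - T2 a) := by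
  have hpi := Real.pi_gt_three
  have hd : Real.pi - 2 * a ≠ 0 := by linarith
  have h1 : T1 a - T2 a = ((2 * (Real.pi - 2 * a) : ℝ) : ℂ) * I := by
    rw [T1, T2, ← sub_mul, ← ofReal_sub]
    congr 2
    ring
  have h2 : ee a * (T1 a - T2 a) = ((2 * Real.sin (2 * a) : ℝ) : ℂ) * (I * exp (((-a : ℝ) : ℂ) * I)) := by
    rw [h1, ee, mul_comm I ((-a : ℝ) : ℂ)]
    have h3 : (2 * Real.sin (2 * a) : ℝ) = mm a * (2 * (Real.pi - 2 * a)) := by
      rw [mm]; field_simp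
    rw [h3]
    push_cast
    ring
  rw [h2]
  have hc1 : Real.cos (Real.pi - 3 * a) = -Real.cos (3 * a) := Real.cos_pi_sub _
  have hs1 : Real.sin (Real.pi - 3 * a) = Real.sin (3 * a) := Real.sin_pi_sub _
  have hc2 : Real.cos (-(Real.pi - a)) = -Real.cos a := by rw [Real.cos_neg, Real.cos_pi_sub]
  have hs2 : Real.sin (-(Real.pi - a)) = -Real.sin a := by rw [Real.sin_neg, Real.sin_pi_sub]
  apply Complex.ext
  · rw [sub_re, T1, T2, exp_mul_I_re, exp_mul_I_re, hc1, hc2, re_ofReal_mul, I_mul_re,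
      exp_mul_I_im, Real.sin_neg]
    have := cos_sub_cos3 a
    linarith
  · rw [sub_im, T1, T2, exp_mul_I_im, exp_mul_I_im, hs1, hs2, im_ofReal_mul, I_mul_im,
      exp_mul_I_re, Real.cos_neg]
    have := sin_add_sin3 a
    linarith

lemma sin_low {x : ℝ} (hx : 0 ≤ x) (hx' : x ≤ 1) : x / 2 ≤ Real.sin x := by
  have h1 : 2 / Real.pi * x ≤ Real.sin x := by
    refine Real.mul_le_sin hx ?_
    have := Real.pi_gt_three
    linarith
  refine le_trans ?_ h1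
  have h2 : (1 : ℝ) / 2 ≤ 2 / Real.pi := by
    rw [div_le_div_iff₀ (by norm_num) Real.pi_pos]
    have := Real.pi_lt_four
    linarith
  calc x / 2 = 1 / 2 * x := by ring
    _ ≤ 2 / Real.pi * x := by gcongr

lemma mm_bounds {a : ℝ} (ha : 0 < a) (ha' : a ≤ 1 / 50) : 0 ≤ mm a ∧ mm a ≤ a := by
  have hpi := Real.pi_gt_three
  have hd : 0 < Real.pi - 2 * a := by linarith
  have hs0 : 0 ≤ Real.sin (2 * a) := Real.sin_nonneg_of_nonneg_of_le_pi (by linarith) (by linarith)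
  have hs1 : Real.sin (2 * a) ≤ 2 * a := Real.sin_le (by linarith)
  refine ⟨div_nonneg hs0 hd.le, ?_⟩
  rw [mm, div_le_iff₀ hd]
  nlinarith

lemma zeta_re_low {a : ℝ} (ha : 0 < a) (ha' : a ≤ 1 / 50) :
    a ^ 2 ≤ Real.cos a - Real.cos (3 * a) := by
  rw [cos_sub_cos3]
  have h1 := sin_low (x := 2 * a) (by linarith) (by linarith)
  have h2 := sin_low (x := a) ha.le (by linarith)
  have h3 : a ≤ Real.sin (2 * a) := by linarith
  have h4 : 0 ≤ Real.sin a := by linarith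
  nlinarith

lemma T1_strip {a : ℝ} (ha : 0 < a) (ha' : a ≤ 1 / 50) : T1 a ∈ Strip := by
  have hpi := Real.pi_gt_three
  show |(T1 a).im| < Real.pi
  rw [T1, im_ofReal_mul, I_im, mul_one, abs_of_pos (by linarith)]
  linarith

lemma T2_strip {a : ℝ} (ha : 0 < a) (ha' : a ≤ 1 / 50) : T2 a ∈ Strip := by
  have hpi := Real.pi_gt_three
  show |(T2 a).im| < Real.pi
  rw [T2, im_ofReal_mul, I_im, mul_one, abs_neg, abs_of_pos (by linarith)]
  linarith

lemma Lam_mul_I_re (θ : ℝ) : (Lam ((θ : ℂ) * I)).re = Real.cos θ := by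
  show ((θ : ℂ) * I + exp ((θ : ℂ) * I)).re = _
  rw [add_re, exp_mul_I_re, re_ofReal_mul, I_re, mul_zero, zero_add]

lemma Lam_T1_re (a : ℝ) : (Lam (T1 a)).re = -Real.cos (3 * a) := by
  rw [T1, Lam_mul_I_re, Real.cos_pi_sub]

lemma Lam_T2_re (a : ℝ) : (Lam (T2 a)).re = -Real.cos a := by
  rw [T2, Lam_mul_I_re, Real.cos_neg, Real.cos_pi_sub]

lemma norm_Lam_mul_I {θ : ℝ} (h : |θ| ≤ 4) : ‖Lam ((θ : ℂ) * I)‖ ≤ 5 := by
  have h1 : ‖Lam ((θ : ℂ) * I)‖ ≤ ‖(θ : ℂ) * I‖ + ‖exp ((θ : ℂ) * I)‖ := norm_add_le _ _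
  have h2 : ‖exp ((θ : ℂ) * I)‖ = 1 := Complex.norm_exp_ofReal_mul_I _
  have h3 : ‖(θ : ℂ) * I‖ = |θ| := by
    rw [norm_mul, norm_I, mul_one, Complex.norm_real, Real.norm_eq_abs]
  linarith

lemma T1_ne_T2 {a : ℝ} (ha : 0 < a) (ha' : a ≤ 1 / 50) : T1 a - T2 a ≠ 0 := by
  have hpi := Real.pi_gt_three
  intro h
  have h1 : (T1 a - T2 a).im = 2 * (Real.pi - 2 * a) := by
    rw [sub_im, T1, T2, im_ofReal_mul, im_ofReal_mul, I_im]
    ring
  rw [h] at h1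
  simp at h1
  linarith

/-- the value of the modulus of `1 + exp` at the end point -/
lemma norm_one_add_exp_T1 {a : ℝ} (ha : 0 < a) : ‖1 + exp (T1 a)‖ ≤ 3 * a := by
  refine le_of_sq_le_sq ?_ (by positivity)
  rw [A_sq]
  have h1 : (T1 a).re = 0 := by rw [T1, re_ofReal_mul, I_re, mul_zero]
  have h2 : (T1 a).im = Real.pi - 3 * a := by rw [T1, im_ofReal_mul, I_im, mul_one]
  rw [h1, h2, Real.cos_pi_sub, mul_zero, Real.exp_zero]
  have h3 := Real.one_sub_sq_div_two_le_cos (x := 3 * a)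
  nlinarith

end Pool.Agent.H50.IS
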