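import Pool.Agent.H50.IS.FoldA
import Pool.Agent.H50.IS.FoldB

/-!
# The sharp fold (F)
-/

open Complex Set Filter Topology
open Pool.Agent.H51.Becker

namespace Pool.Agent.H50.IS

open Pool.Agent.H50.IV

/-- the bound of the derivative of the fold -/
lemma expb {e τ : ℂ} (he : ‖e‖ ≤ 1 / 10) (hτ : τ ∈ Strip) (hre : -1 < (Lam τ).re)
    (h1e : ‖1 + e‖ ≤ 11 / 10) (hD : 0 < ‖1 + exp τ‖) :
    ‖exp (L e τ)‖ ≤ 1 + 2 / ‖1 + exp τ‖ := by
  rw [exp_L he hτ hre, norm_div, div_le_iff₀ hD]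
  have h1 : ‖exp τ - e‖ ≤ ‖1 + exp τ‖ + ‖1 + e‖ := by
    calc ‖exp τ - e‖ = ‖(1 + exp τ) - (1 + e)‖ := by ring_nf
      _ ≤ _ := norm_sub_le _ _
  have h2 : (1 + 2 / ‖1 + exp τ‖) * ‖1 + exp τ‖ = ‖1 + exp τ‖ + 2 := by
    field_simp
  rw [h2]
  linarith

/-- the angle along the path -/
noncomputable def th (a t : ℝ) : ℝ := -(Real.pi - a) + t * (2 * (Real.pi - 2 * a))

noncomputable def pth (a p t : ℝ) : ℂ :=
  Lam ((th a t : ℂ) * I) - Lam (T2 a) + (((1 - t) * p : ℝ) : ℂ)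

noncomputable def pth' (a p t : ℝ) : ℂ :=
  (1 + exp ((th a t : ℂ) * I)) * (((2 * (Real.pi - 2 * a) : ℝ) : ℂ) * I) - (p : ℂ)

lemma hasDerivAt_pth (a p t : ℝ) : HasDerivAt (pth a p) (pth' a p t) t := by
  have h0 : HasDerivAt (fun t : ℝ => th a t) (2 * (Real.pi - 2 * a)) t := by
    have := ((hasDerivAt_id' t).mul_const (2 * (Real.pi - 2 * a))).const_add (-(Real.pi - a))
    rw [one_mul] at this
    exact this
  have h1 : HasDerivAt (fun t : ℝ => (th a t : ℂ) * I) (((2 * (Real.pi - 2 * a) : ℝ) : ℂ) * I) t :=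
    h0.ofReal_comp.mul_const I
  have h2 : HasDerivAt (fun t : ℝ => (((1 - t) * p : ℝ) : ℂ)) (((-p : ℝ)) : ℂ) t := by
    have h3 : HasDerivAt (fun t : ℝ => (1 - t) * p) (-1 * p) t := by
      have := ((hasDerivAt_id' t).const_sub 1).mul_const p
      exact this
    have h4 : -1 * p = -p := by ring
    rw [h4] at h3
    exact h3.ofReal_comp
  have h5 := ((h1.add h1.cexp).sub_const (Lam (T2 a))).add h2
  refine h5.congr_deriv ?_
  rw [pth']
  push_cast
  ring

theorem fold_sharp : ∃ C₁ : ℝ, 100 ≤ C₁ ∧ ∃ a₀ > 0, ∀ a, 0 < a → a ≤ a₀ →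
    ∃ (β φ g : ℂ → ℂ) (ζ : ℂ), Fold C₁ a β φ g ζ := by
  refine ⟨200, by norm_num, 1 / 50, by norm_num, fun a ha ha' => ?_⟩
  have hpi3 := Real.pi_gt_three
  have hpi4 := Real.pi_lt_d2
  have ha10 : a ≤ 1 / 10 := by linarith
  obtain ⟨hm0, hma⟩ := mm_bounds ha ha'
  have hcos1 : Real.cos a < 1 := (cos_bound ha ha10).2
  have hcos3 := zeta_re_low ha ha'
  set e : ℂ := ee a with he
  set P₂ : ℂ := Lam (T2 a) with hP₂
  have hP2 : P₂.re = -Real.cos a := Lam_T2_re a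
  have hP2n : ‖P₂‖ ≤ 5 := by
    refine norm_Lam_mul_I ?_
    rw [abs_neg, abs_of_pos (by linarith)]
    linarith
  have hP1n : ‖Lam (T1 a)‖ ≤ 5 := by
    refine norm_Lam_mul_I ?_
    rw [abs_of_pos (by linarith)]
    linarith
  have hP' : ∀ z : ℂ, 0 ≤ z.re → -1 < (z + P₂).re := by
    intro z hz
    rw [add_re, hP2]
    linarith
  have hcore : ∀ z : ℂ, 0 ≤ z.re → ‖e‖ = mm a ∧
      2 * z.re + a ^ 2 / 4 ≤ ‖1 + exp (inv (z + P₂))‖ ^ 2 ∧ a / 2 ≤ ‖1 + exp (inv (z + P₂))‖ ∧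
      9 / 10 ≤ ‖1 + -(e * exp (-inv (z + P₂)))‖ ∧ ‖1 + e‖ ≤ 11 / 10 ∧
      2 * z.re * ‖1 + e‖ ≤ ‖1 + -(e * exp (-inv (z + P₂)))‖ * ‖1 + exp (inv (z + P₂))‖ ^ 2 *
        (1 + 101 * a * z.re) := by
    intro z hz
    refine core ha ha' hm0 hma rfl hz ?_
    rw [Lam_inv (hP' z hz), add_re, hP2]
    ring
  have he10 : ‖e‖ ≤ 1 / 10 := by
    rw [(hcore 0 (by simp)).1]
    linarith
  have hexp : ∀ z : ℂ, 0 ≤ z.re →
      ‖exp (L e (inv (z + P₂)))‖ ≤ 1 + 2 / ‖1 + exp (inv (z + P₂))‖ := by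
    intro z hz
    obtain ⟨-, -, h2, -, h4, -⟩ := hcore z hz
    refine expb he10 (inv_mem (hP' z hz)) ?_ h4 (by linarith)
    rw [Lam_inv (hP' z hz)]
    exact hP' z hz
  have hphi : ∀ z : ℂ, 0 ≤ z.re → ‖phi e (z + P₂)‖ =
      ‖1 + e‖ / (‖1 + -(e * exp (-inv (z + P₂)))‖ * ‖1 + exp (inv (z + P₂))‖ ^ 2) := by
    intro z _
    rw [phi, norm_div, norm_mul, norm_pow]
  have hphi2 : ∀ z : ℂ, 0 ≤ z.re → ∀ c : ℝ, 0 < c → c ≤ ‖1 + exp (inv (z + P₂))‖ →
      ‖phi e (z + P₂)‖ ≤ 2 / c ^ 2 := by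
    intro z hz c hc hcD
    obtain ⟨-, -, -, h3, h4, -⟩ := hcore z hz
    rw [hphi z hz]
    have h5 : c ^ 2 ≤ ‖1 + exp (inv (z + P₂))‖ ^ 2 := by gcongr
    have h6 : 0 < c ^ 2 := by positivity
    have h7 : 9 / 10 * c ^ 2 ≤
        ‖1 + -(e * exp (-inv (z + P₂)))‖ * ‖1 + exp (inv (z + P₂))‖ ^ 2 := by gcongr
    have h8 : 0 < 9 / 10 * c ^ 2 := by positivity
    rw [div_le_div_iff₀ (by linarith) h6]
    nlinarith [norm_nonneg (1 + e)]
  have hfar : ∀ z : ℂ, 0 ≤ z.re → 200 ≤ ‖z‖ → ‖z‖ / 4 ≤ ‖exp (inv (z + P₂))‖ ∧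
      ‖z‖ / 4 ≤ ‖1 + exp (inv (z + P₂))‖ := by
    intro z hz hz200
    have h1 := norm_Lam_le (inv_mem (hP' z hz)) (by rw [Lam_inv (hP' z hz)]; exact hP' z hz)
    rw [Lam_inv (hP' z hz)] at h1
    have h2 : ‖z‖ ≤ ‖z + P₂‖ + ‖P₂‖ := by
      calc ‖z‖ = ‖(z + P₂) - P₂‖ := by ring_nf
        _ ≤ _ := norm_sub_le _ _
    have h3 : ‖exp (inv (z + P₂))‖ ≤ ‖1 + exp (inv (z + P₂))‖ + 1 := by
      calc ‖exp (inv (z + P₂))‖ = ‖(1 + exp (inv (z + P₂))) - 1‖ := by ring_nf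
        _ ≤ ‖1 + exp (inv (z + P₂))‖ + ‖(1 : ℂ)‖ := norm_sub_le _ _
        _ = _ := by rw [norm_one]
    constructor <;> linarith
  have hT1re : -1 < (Lam (T1 a)).re := by
    rw [Lam_T1_re]
    nlinarith
  have hzP : Lam (T1 a) - P₂ + P₂ = Lam (T1 a) := sub_add_cancel _ _
  refine ⟨fun z => L e (inv (z + P₂)), fun z => phi e (z + P₂), fun z => fold e (z + P₂),
    Lam (T1 a) - P₂, ?_, ?_, ?_, ?_, ?_, ?_, ?_, ?_, ?_, ?_, ?_, ?_, ?_⟩
  · intro z hz
    exact (hasDerivAt_L he10 (hP' z hz)).comp_add_const z P₂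
  · intro z hz
    exact (hasDerivAt_fold he10 (hP' z hz)).comp_add_const z P₂
  · intro z hz
    obtain ⟨-, -, h2, h3, -, h5⟩ := hcore z hz
    show 2 * z.re * ‖phi e (z + P₂)‖ ≤ _
    rw [hphi z hz, ← mul_div_assoc]
    have hD : 0 < ‖1 + exp (inv (z + P₂))‖ := by linarith
    have hW : 0 < ‖1 + -(e * exp (-inv (z + P₂)))‖ := by linarith
    rw [div_le_iff₀ (by positivity)]
    refine h5.trans ?_
    rw [mul_comm]
    refine mul_le_mul_of_nonneg_right ?_ (by positivity)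
    have : 0 ≤ a * z.re := by positivity
    nlinarith
  · intro z hz
    obtain ⟨-, -, h2, -, -, -⟩ := hcore z hz
    show ‖phi e (z + P₂)‖ ≤ _
    refine (hphi2 z hz (a / 2) (by positivity) h2).trans ?_
    rw [div_le_div_iff₀ (by positivity) (by positivity)]
    nlinarith [sq_nonneg a]
  · intro z hz hz200
    show ‖phi e (z + P₂)‖ ≤ _
    have hz0 : 0 < ‖z‖ := by linarith
    refine (hphi2 z hz (‖z‖ / 4) (by positivity) (hfar z hz hz200).2).trans ?_
    rw [div_le_div_iff₀ (by positivity) (by positivity)]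
    nlinarith [sq_nonneg ‖z‖]
  · intro z hz hz200
    show ‖L e (inv (z + P₂))‖ ≤ _
    have hz0 : 0 < ‖z‖ := by linarith
    have h1 := (hfar z hz hz200).1
    set τ := inv (z + P₂) with hτ
    have hvinv : ‖exp (-τ)‖ * ‖exp τ‖ = 1 := by
      rw [← norm_mul, ← exp_add]; simp
    have hv0 : 0 < ‖exp (-τ)‖ := norm_pos_iff.2 (exp_ne_zero _)
    have hv : ‖exp (-τ)‖ ≤ 4 / ‖z‖ := by
      rw [le_div_iff₀ hz0]
      nlinarith
    have hv2 : ‖exp (-τ)‖ ≤ 1 / 2 := by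
      refine hv.trans ?_
      rw [div_le_div_iff₀ hz0 (by norm_num)]
      linarith
    have hu : ‖-(e * exp (-τ))‖ ≤ ‖exp (-τ)‖ := by
      rw [norm_neg, norm_mul]
      nlinarith
    have h2 := Complex.norm_log_one_add_half_le_self hv2
    have h3 := Complex.norm_log_one_add_half_le_self (hu.trans hv2)
    have h4 : ‖L e τ‖ ≤ ‖log (1 + -(e * exp (-τ)))‖ + ‖log (1 + exp (-τ))‖ := norm_sub_le _ _
    have h5 : (200 : ℝ) / ‖z‖ = 50 * (4 / ‖z‖) := by ring
    rw [h5]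
    linarith
  · intro z hz
    obtain ⟨-, -, h2, -, -, -⟩ := hcore z hz
    refine (hexp z hz).trans ?_
    have hD : 0 < ‖1 + exp (inv (z + P₂))‖ := by linarith
    have h3 : 2 / ‖1 + exp (inv (z + P₂))‖ ≤ 2 / (a / 2) := by gcongr
    have h4 : 2 / (a / 2) = 4 / a := by field_simp; norm_num
    rw [h4] at h3
    have h5 : 1 ≤ 196 / a := by
      rw [le_div_iff₀ ha]; linarith
    have h6 : (200 : ℝ) / a = 196 / a + 4 / a := by ring
    linarith
  · intro z hz
    obtain ⟨-, h1, h2, -, -, -⟩ := hcore z hz.le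
    refine (hexp z hz.le).trans ?_
    have hs : 0 < Real.sqrt z.re := Real.sqrt_pos.2 hz
    have hD : Real.sqrt z.re ≤ ‖1 + exp (inv (z + P₂))‖ := by
      refine le_of_sq_le_sq ?_ (norm_nonneg _)
      rw [Real.sq_sqrt hz.le]
      nlinarith [sq_nonneg a]
    have h3 : 2 / ‖1 + exp (inv (z + P₂))‖ ≤ 2 / Real.sqrt z.re := by gcongr
    have h4 : 0 < 1 / Real.sqrt z.re := by positivity
    have h5 : 2 / Real.sqrt z.re = 2 * (1 / Real.sqrt z.re) := by ring
    rw [h5] at h3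
    linarith
  · rw [sub_re, hP2, Lam_T1_re]
    have : a ^ 2 / 200 ≤ a ^ 2 := by nlinarith [sq_nonneg a]
    linarith
  · exact (norm_sub_le _ _).trans (by linarith)
  · show 1 / (200 * a) ≤ ‖exp (L e (inv (Lam (T1 a) - P₂ + P₂)))‖
    rw [hzP, inv_Lam (T1_strip ha ha'), exp_L he10 (T1_strip ha ha') hT1re, norm_div]
    have h1 := norm_one_add_exp_T1 ha
    have h2 : 0 < ‖1 + exp (T1 a)‖ := norm_pos_iff.2 (one_add_exp_ne_zero (T1_strip ha ha'))
    have h3 : ‖exp (T1 a)‖ = 1 := by rw [T1]; exact Complex.norm_exp_ofReal_mul_I _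
    have h4 : 1 / 2 ≤ ‖exp (T1 a) - e‖ := by
      have := norm_sub_norm_le (exp (T1 a)) e
      rw [h3] at this
      linarith
    rw [div_le_div_iff₀ (by positivity) h2]
    nlinarith
  · show fold e (Lam (T1 a) - P₂ + P₂) = fold e (0 + P₂)
    rw [hzP, zero_add, hP₂, fold, fold, inv_Lam (T1_strip ha ha'), inv_Lam (T2_strip ha ha')]
    have h2 := diff_exp ha ha'
    linear_combination h2
  · intro p hp hpa
    refine ⟨pth a p, pth' a p, ?_, ?_, ?_⟩
    · have h0 : th a 0 = -(Real.pi - a) := by rw [th]; ring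
      rw [pth, h0, ← T2]
      simp
    · have h1 : th a 1 = Real.pi - 3 * a := by rw [th]; ring
      rw [pth, h1, ← T1]
      simp [hP₂]
    · intro t ht
      obtain ⟨ht0, ht1⟩ := ht
      have hp1 : p ≤ 1 := by
        refine hpa.trans ?_
        have : a ^ 3 ≤ 1 ^ 3 := by gcongr; linarith
        simpa using this
      have hthabs : |th a t| ≤ Real.pi - a := by
        rw [th, abs_le]
        constructor
        · nlinarith
        · nlinarith
      have hcosth : -Real.cos a ≤ Real.cos (th a t) := by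
        rw [← Real.cos_pi_sub, ← Real.cos_abs (th a t)]
        exact Real.cos_le_cos_of_nonneg_of_le_pi (abs_nonneg _) (by linarith) hthabs
      have hre : (pth a p t).re = Real.cos (th a t) + Real.cos a + (1 - t) * p := by
        rw [pth, add_re, sub_re, Lam_mul_I_re, ofReal_re, Lam_T2_re]
        ring
      have hre2 : p / 2 ≤ (pth a p t).re := by
        rw [hre]
        rcases le_or_gt t (1 / 2) with h | h
        · nlinarith
        · have h1 : |th a t| ≤ Real.pi - 3 * a := by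
            rw [th, abs_le]
            constructor <;> nlinarith
          have h2 : -Real.cos (3 * a) ≤ Real.cos (th a t) := by
            rw [← Real.cos_pi_sub, ← Real.cos_abs (th a t)]
            exact Real.cos_le_cos_of_nonneg_of_le_pi (abs_nonneg _) (by linarith) h1
          have h3 : p ≤ a ^ 2 := by
            refine hpa.trans ?_
            nlinarith [sq_nonneg a]
          have h4 : 0 ≤ (1 - t) * p := by
            have : 0 ≤ 1 - t := by linarith
            positivity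
          linarith
      have hnorm : ‖pth a p t‖ ≤ 200 := by
        have h1 : ‖Lam ((th a t : ℂ) * I)‖ ≤ 5 := norm_Lam_mul_I (by linarith)
        have h2 : ‖(((1 - t) * p : ℝ) : ℂ)‖ ≤ 1 := by
          rw [Complex.norm_real, Real.norm_eq_abs, abs_le]
          constructor <;> nlinarith
        have h3 : ‖pth a p t‖ ≤ ‖Lam ((th a t : ℂ) * I) - Lam (T2 a)‖ +
            ‖(((1 - t) * p : ℝ) : ℂ)‖ := norm_add_le _ _
        have h4 : ‖Lam ((th a t : ℂ) * I) - Lam (T2 a)‖ ≤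
            ‖Lam ((th a t : ℂ) * I)‖ + ‖P₂‖ := norm_sub_le _ _
        linarith
      refine ⟨hasDerivAt_pth a p t, hre2, hnorm, ?_⟩
      have hγ0 : 0 ≤ (pth a p t).re := by linarith
      obtain ⟨-, -, hDa, -, -, -⟩ := hcore _ hγ0
      have hE := hexp _ hγ0
      have hD2 := two_mul_le (inv (pth a p t + P₂))
      rw [Lam_inv (hP' _ hγ0), add_re, hP2, hre] at hD2
      show ‖exp (L e (inv (pth a p t + P₂)))‖ * ‖pth' a p t‖ ≤ 200
      set D : ℝ := ‖1 + exp (inv (pth a p t + P₂))‖ with hD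
      have hD0 : 0 < D := by linarith
      set d : ℝ := ‖1 + exp ((th a t : ℂ) * I)‖ with hd
      have hd0 : 0 ≤ d := norm_nonneg _
      have hdsq : d ^ 2 = 2 + 2 * Real.cos (th a t) := by
        rw [hd, A_sq]
        have h1 : ((th a t : ℂ) * I).re = 0 := by rw [re_ofReal_mul, I_re, mul_zero]
        have h2 : ((th a t : ℂ) * I).im = th a t := by rw [im_ofReal_mul, I_im, mul_one]
        rw [h1, h2, mul_zero, Real.exp_zero]
        ring
      have hd2 : d ≤ 2 := by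
        refine le_of_sq_le_sq ?_ (by norm_num)
        rw [hdsq]
        have := Real.cos_le_one (th a t)
        linarith
      have hdD : d ≤ D := by
        refine le_of_sq_le_sq ?_ hD0.le
        rw [hdsq]
        have : 0 ≤ (1 - t) * p := by
          have : 0 ≤ 1 - t := by linarith
          positivity
        linarith
      have hγ' : ‖pth' a p t‖ ≤ 7 * d + p := by
        have h1 : ‖pth' a p t‖ ≤ ‖(1 + exp ((th a t : ℂ) * I)) *
            (((2 * (Real.pi - 2 * a) : ℝ) : ℂ) * I)‖ + ‖(p : ℂ)‖ := norm_sub_le _ _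
        rw [norm_mul, norm_mul, norm_I, mul_one, Complex.norm_real, Complex.norm_real,
          Real.norm_of_nonneg hp.le, Real.norm_of_nonneg (by linarith), ← hd] at h1
        have h2 : d * (2 * (Real.pi - 2 * a)) ≤ d * 7 := by
          refine mul_le_mul_of_nonneg_left ?_ hd0
          linarith
        linarith
      have h1 : d / D ≤ 1 := (div_le_one hD0).2 hdD
      have h2 : p / D ≤ 1 := by
        rw [div_le_one hD0]
        have : a ^ 3 ≤ a / 2 := by nlinarith [sq_nonneg a]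
        linarith
      calc ‖exp (L e (inv (pth a p t + P₂)))‖ * ‖pth' a p t‖
          ≤ (1 + 2 / D) * (7 * d + p) := by gcongr
        _ = 7 * d + p + 14 * (d / D) + 2 * (p / D) := by ring
        _ ≤ 200 := by linarith

end Pool.Agent.H50.IS
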