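import Mathlib
import Pool.Agent.H50.IS.Defs

/-! # Sharp version: the sum over the scales -/

open Complex Set Filter Topology

namespace Pool.Agent.H50.IS

lemma re_div' (z : ℂ) (r : ℝ) : (z / (r : ℂ)).re = z.re / r := by
  rw [Complex.div_ofReal_re]

lemma norm_div'' (z : ℂ) {r : ℝ} (hr : 0 < r) : ‖z / (r : ℂ)‖ = ‖z‖ / r := by
  rw [norm_div, norm_real, Real.norm_eq_abs, abs_of_pos hr]

section

variable {C₁ Λ δ : ℝ} {b φ g : ℕ → ℂ → ℂ} {ζ : ℕ → ℂ} {a s M : ℕ → ℝ}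
  (S : Seq C₁ Λ δ b φ g ζ a s M) (hC₁ : 100 ≤ C₁) (hδ : δ ≤ 1 / (10000 * C₁ ^ 4)) (hΛ : 1 ≤ Λ)

include hC₁ hδ in
lemma C_mul_δ : C₁ ^ 4 * δ ≤ 1 / 10000 := by
  have h : 0 < C₁ ^ 4 := by positivity
  rw [le_div_iff₀ (by positivity)] at hδ
  linarith

include hC₁ hδ in
lemma C1_mul_δ (h0 : 0 ≤ δ) : C₁ * δ ≤ 1 / 10000 := by
  have h := C_mul_δ hC₁ hδ
  have h1 : C₁ ≤ C₁ ^ 4 := by
    calc C₁ = C₁ ^ 1 := (pow_one _).symm
      _ ≤ C₁ ^ 4 := pow_le_pow_right₀ (by linarith) (by norm_num)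
  nlinarith

include S

lemma Seq.δ_pos_s : 0 < δ := lt_of_lt_of_le (S.s_pos 0) (S.s_le 0)

include hC₁ hδ in
lemma Seq.δ_le : δ ≤ 1 / 1000 := by
  have h := C1_mul_δ hC₁ hδ S.δ_pos_s.le
  have := S.δ_pos_s
  nlinarith

include hC₁ hδ in
lemma Seq.y_pos_s (n : ℕ) : 0 < y a s n := mul_pos (S.s_pos n) (pow_pos (S.a_pos n) 3)

include hC₁ hδ in
lemma Seq.a_le_one (n : ℕ) : a n ≤ 1 / 1000 := (S.a_le n).trans (S.δ_le hC₁ hδ)

include hC₁ hδ in
lemma Seq.y_le_s (n : ℕ) : y a s n ≤ s n * (1 / 1000) := by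
  rw [y]
  have h1 := S.a_le_one hC₁ hδ n
  have h2 := S.a_pos n
  have h3 := S.s_pos n
  have h4 : a n ^ 3 ≤ 1 / 1000 := by
    calc a n ^ 3 ≤ a n ^ 1 := pow_le_pow_of_le_one h2.le (by linarith) (by norm_num)
      _ = a n := pow_one _
      _ ≤ 1 / 1000 := h1
  gcongr

include hC₁ hδ in
lemma Seq.C1_y_le (n : ℕ) : C₁ * y a s n ≤ 1 / 10000 := by
  have h1 := S.y_le_s hC₁ hδ n
  have h2 := S.s_le n
  have h3 := C1_mul_δ hC₁ hδ S.δ_pos_s.le
  have h4 := S.s_pos n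
  have h5 : y a s n ≤ δ := by linarith
  nlinarith

include hC₁ hδ in
lemma Seq.s_half (n : ℕ) : s (n + 1) ≤ (1 / 2) * s n := by
  have h1 := S.s_succ n
  have h2 := S.y_le_s hC₁ hδ n
  have h3 := S.y_pos_s hC₁ hδ n
  have h4 := S.s_le n
  have h5 := S.δ_le hC₁ hδ
  have h6 := S.s_pos n
  nlinarith

include hC₁ hδ in
lemma Seq.s_add (n k : ℕ) : s (k + n) ≤ (1 / 2) ^ k * s n := by
  induction k with
  | zero => simp
  | succ k ih =>
    have h := S.s_half hC₁ hδ (k + n)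
    have e : k + 1 + n = k + n + 1 := by ring
    rw [e, pow_succ]
    linarith

include hC₁ hδ in
lemma Seq.summable_s (n : ℕ) : Summable fun k => s (k + n) := by
  refine Summable.of_nonneg_of_le (fun k => (S.s_pos _).le) (S.s_add hC₁ hδ n)
    ((summable_geometric_two).mul_right _)

include hC₁ hδ in
lemma Seq.tsum_s_le (n : ℕ) : ∑' k, s (k + n) ≤ 2 * s n := by
  calc ∑' k, s (k + n) ≤ ∑' k : ℕ, (1 / 2) ^ k * s n :=
        Summable.tsum_le_tsum (S.s_add hC₁ hδ n) (S.summable_s hC₁ hδ n)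
          ((summable_geometric_two).mul_right _)
    _ = 2 * s n := by rw [tsum_mul_right, tsum_geometric_two]

include hC₁ hδ in
lemma Seq.s_le_s (n k : ℕ) : s (k + n) ≤ s n := by
  have h := S.s_add hC₁ hδ n k
  have h2 : ((1 : ℝ) / 2) ^ k ≤ 1 := pow_le_one₀ (by norm_num) (by norm_num)
  have h3 := S.s_pos n
  nlinarith

include hC₁ hδ in
/-- the inner scales are far away -/
lemma Seq.far {n : ℕ} {z : ℂ} (hz : y a s n / 2 ≤ ‖z‖) (k : ℕ) :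
    C₁ * s (k + (n + 1)) ≤ ‖z‖ := by
  have h1 := S.s_le_s hC₁ hδ (n + 1) k
  have h2 := S.s_succ n
  have h3 := S.y_pos_s hC₁ hδ n
  have h4 := S.C1_y_le hC₁ hδ n
  have h5 : s (k + (n + 1)) ≤ y a s n ^ 2 := h1.trans h2
  calc C₁ * s (k + (n + 1)) ≤ C₁ * y a s n ^ 2 := by gcongr
    _ = (C₁ * y a s n) * y a s n := by ring
    _ ≤ (1 / 10000) * y a s n := by gcongr
    _ ≤ ‖z‖ := by linarith

lemma Seq.b_far (hC : 0 < C₁) {z : ℂ} (hz : 0 < z.re) (m : ℕ) (h : C₁ * s m ≤ ‖z‖) :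
    ‖b m (z / (s m : ℂ))‖ ≤ C₁ * s m / ‖z‖ := by
  have hs := S.s_pos m
  have hz0 : 0 < ‖z‖ := lt_of_lt_of_le (by positivity) h
  have h1 := (S.fold m).β_far (z / (s m : ℂ)) (by rw [re_div']; positivity)
    (by rw [norm_div'' _ hs, le_div_iff₀ hs]; exact h)
  rw [norm_div'' _ hs] at h1
  refine h1.trans (le_of_eq ?_)
  field_simp

lemma Seq.φ_far' (hC : 0 < C₁) {z : ℂ} (hz : 0 < z.re) (m : ℕ) (h : C₁ * s m ≤ ‖z‖) :
    ‖φ m (z / (s m : ℂ)) / (s m : ℂ)‖ ≤ C₁ * s m / ‖z‖ ^ 2 := by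
  have hs := S.s_pos m
  have hz0 : 0 < ‖z‖ := lt_of_lt_of_le (by positivity) h
  have h1 := (S.fold m).φ_far (z / (s m : ℂ)) (by rw [re_div']; positivity)
    (by rw [norm_div'' _ hs, le_div_iff₀ hs]; exact h)
  rw [norm_div'' _ hs] at h1
  rw [norm_div'' _ hs, div_le_iff₀ hs]
  refine h1.trans (le_of_eq ?_)
  field_simp

lemma Seq.φ_near {z : ℂ} (hz : 0 < z.re) (m : ℕ) :
    ‖φ m (z / (s m : ℂ)) / (s m : ℂ)‖ ≤ C₁ / (a m ^ 2 * s m) := by
  have hs := S.s_pos m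
  have ha := S.a_pos m
  have h1 := (S.fold m).φ_le (z / (s m : ℂ)) (by rw [re_div']; positivity)
  rw [norm_div'' _ hs, div_le_iff₀ hs]
  refine h1.trans (le_of_eq ?_)
  field_simp

lemma Seq.b_near {z : ℂ} (hz : 0 < z.re) (m : ℕ) :
    ‖b m (z / (s m : ℂ)) - b m 0‖ ≤ C₁ / (a m ^ 2 * s m) * ‖z‖ := by
  have hs := S.s_pos m
  have ha := S.a_pos m
  have hconv : Convex ℝ {w : ℂ | 0 ≤ w.re} := convex_halfSpace_re_ge 0
  have h := hconv.norm_image_sub_le_of_norm_hasDerivWithin_le (f := b m) (f' := φ m)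
    (C := C₁ / a m ^ 2) (x := 0) (y := z / (s m : ℂ))
    (fun w hw => ((S.fold m).dβ w hw).hasDerivWithinAt) (fun w hw => (S.fold m).φ_le w hw)
    (show (0 : ℝ) ≤ (0 : ℂ).re from le_of_eq rfl)
    (show 0 ≤ (z / (s m : ℂ)).re by rw [re_div']; positivity)
  rw [sub_zero, norm_div'' _ hs] at h
  refine h.trans (le_of_eq ?_)
  field_simp

lemma Seq.M_eq (n : ℕ) : ∑ m ∈ Finset.range n, C₁ / (a m ^ 2 * s m) = M n - M 0 := by
  induction n with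
  | zero => simp
  | succ n ih =>
    rw [Finset.sum_range_succ, ih, S.M_succ]
    ring

include hC₁ hδ in
lemma Seq.summable_b {n : ℕ} {z : ℂ} (hz : 0 < z.re) (h : y a s n / 2 ≤ ‖z‖) :
    Summable fun k => b (k + (n + 1)) (z / (s (k + (n + 1)) : ℂ)) := by
  refine Summable.of_norm_bounded (g := fun k => C₁ * s (k + (n + 1)) / ‖z‖) ?_
    (fun k => S.b_far (by linarith) hz _ (S.far hC₁ hδ h k))
  exact ((S.summable_s hC₁ hδ (n + 1)).mul_left C₁).div_const _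

include hC₁ hδ in
lemma Seq.summable_φ {n : ℕ} {z : ℂ} (hz : 0 < z.re) (h : y a s n / 2 ≤ ‖z‖) :
    Summable fun k => φ (k + (n + 1)) (z / (s (k + (n + 1)) : ℂ)) / (s (k + (n + 1)) : ℂ) := by
  refine Summable.of_norm_bounded (g := fun k => C₁ * s (k + (n + 1)) / ‖z‖ ^ 2) ?_
    (fun k => S.φ_far' (by linarith) hz _ (S.far hC₁ hδ h k))
  exact ((S.summable_s hC₁ hδ (n + 1)).mul_left C₁).div_const _

include hC₁ hδ in
lemma Seq.B_eq {n : ℕ} {z : ℂ} (hz : 0 < z.re) (h : y a s n / 2 ≤ ‖z‖) :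
    B b s z = ∑ m ∈ Finset.range n, b m (z / (s m : ℂ)) + b n (z / (s n : ℂ)) +
      ∑' k, b (k + (n + 1)) (z / (s (k + (n + 1)) : ℂ)) := by
  have h1 : Summable fun m => b m (z / (s m : ℂ)) :=
    (summable_nat_add_iff (n + 1)).1 (S.summable_b hC₁ hδ hz h)
  rw [B, ← h1.sum_add_tsum_nat_add (n + 1), Finset.sum_range_succ]

include hC₁ hδ in
lemma Seq.B'_eq {n : ℕ} {z : ℂ} (hz : 0 < z.re) (h : y a s n / 2 ≤ ‖z‖) :
    B' φ s z = ∑ m ∈ Finset.range n, φ m (z / (s m : ℂ)) / (s m : ℂ) +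
      φ n (z / (s n : ℂ)) / (s n : ℂ) +
      ∑' k, φ (k + (n + 1)) (z / (s (k + (n + 1)) : ℂ)) / (s (k + (n + 1)) : ℂ) := by
  have h1 : Summable fun m => φ m (z / (s m : ℂ)) / (s m : ℂ) :=
    (summable_nat_add_iff (n + 1)).1 (S.summable_φ hC₁ hδ hz h)
  rw [B', ← h1.sum_add_tsum_nat_add (n + 1), Finset.sum_range_succ]

include hC₁ hδ in
lemma Seq.tail_le {n : ℕ} {z : ℂ} (hz : 0 < z.re) (h : y a s n / 2 ≤ ‖z‖) :
    ‖∑' k, b (k + (n + 1)) (z / (s (k + (n + 1)) : ℂ))‖ ≤ 2 * C₁ * s (n + 1) / ‖z‖ := by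
  have hs := ((S.summable_s hC₁ hδ (n + 1)).mul_left C₁).div_const ‖z‖
  refine (tsum_of_norm_bounded hs.hasSum
    fun k => S.b_far (by linarith) hz _ (S.far hC₁ hδ h k)).trans ?_
  rw [tsum_div_const, tsum_mul_left]
  have h1 := S.tsum_s_le hC₁ hδ (n + 1)
  have : C₁ * ∑' k, s (k + (n + 1)) ≤ 2 * C₁ * s (n + 1) := by nlinarith
  gcongr

include hC₁ hδ in
lemma Seq.tail'_le {n : ℕ} {z : ℂ} (hz : 0 < z.re) (h : y a s n / 2 ≤ ‖z‖) :
    ‖∑' k, φ (k + (n + 1)) (z / (s (k + (n + 1)) : ℂ)) / (s (k + (n + 1)) : ℂ)‖ ≤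
      2 * C₁ * s (n + 1) / ‖z‖ ^ 2 := by
  have hs := ((S.summable_s hC₁ hδ (n + 1)).mul_left C₁).div_const (‖z‖ ^ 2)
  refine (tsum_of_norm_bounded hs.hasSum
    fun k => S.φ_far' (by linarith) hz _ (S.far hC₁ hδ h k)).trans ?_
  rw [tsum_div_const, tsum_mul_left]
  have h1 := S.tsum_s_le hC₁ hδ (n + 1)
  have : C₁ * ∑' k, s (k + (n + 1)) ≤ 2 * C₁ * s (n + 1) := by nlinarith
  gcongr

include hC₁ hδ in
/-- the perturbation at scale `n` -/
theorem Seq.region {n : ℕ} {z : ℂ} (hz : 0 < z.re) (h : y a s n / 2 ≤ ‖z‖) :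
    ‖B b s z - K b n - b n (z / (s n : ℂ))‖ ≤ ‖z‖ * (M n - M 0) + 4 * C₁ * y a s n := by
  have e : B b s z - K b n - b n (z / (s n : ℂ)) =
      (∑ m ∈ Finset.range n, (b m (z / (s m : ℂ)) - b m 0)) +
        ∑' k, b (k + (n + 1)) (z / (s (k + (n + 1)) : ℂ)) := by
    rw [S.B_eq hC₁ hδ hz h, K, Finset.sum_sub_distrib]
    ring
  rw [e]
  refine (norm_add_le _ _).trans (add_le_add ?_ ?_)
  · refine (norm_sum_le _ _).trans ((Finset.sum_le_sum fun m _ => S.b_near hz m).trans ?_)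
    rw [← Finset.sum_mul, S.M_eq, mul_comm]
  · refine (S.tail_le hC₁ hδ hz h).trans ?_
    have h3 := S.y_pos_s hC₁ hδ n
    have h4 := S.s_succ n
    have hz0 : 0 < ‖z‖ := by linarith
    rw [div_le_iff₀ hz0]
    have h5 : 2 * C₁ * s (n + 1) ≤ 2 * C₁ * y a s n ^ 2 := by gcongr
    have h6 : 4 * C₁ * y a s n * (y a s n / 2) ≤ 4 * C₁ * y a s n * ‖z‖ := by gcongr
    nlinarith

include hC₁ hδ in
/-- the derivative -/
theorem Seq.hasDerivAt_B {z : ℂ} (hz : 0 < z.re) {n : ℕ} (hn : y a s n ≤ ‖z‖) :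
    HasDerivAt (B b s) (B' φ s z) z := by
  have hy := S.y_pos_s hC₁ hδ n
  have hz0 : 0 < ‖z‖ := lt_of_lt_of_le hz ((le_abs_self _).trans (abs_re_le_norm z))
  have hball : ∀ w ∈ Metric.ball z (z.re / 2), 0 < w.re ∧ ‖z‖ / 2 ≤ ‖w‖ := by
    intro w hw
    rw [Metric.mem_ball, dist_eq_norm] at hw
    constructor
    · have h1 := (abs_le.1 (abs_re_le_norm (w - z))).1
      rw [sub_re] at h1
      linarith
    · have h1 : ‖z‖ ≤ ‖w‖ + ‖w - z‖ := by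
        calc ‖z‖ = ‖w - (w - z)‖ := by ring_nf
          _ ≤ ‖w‖ + ‖w - z‖ := norm_sub_le _ _
      have h2 : z.re ≤ ‖z‖ := (le_abs_self _).trans (abs_re_le_norm z)
      linarith
  have hball' : ∀ w ∈ Metric.ball z (z.re / 2), y a s n / 2 ≤ ‖w‖ := fun w hw => by
    have := (hball w hw).2
    linarith
  have hmem : z ∈ Metric.ball z (z.re / 2) := Metric.mem_ball_self (by linarith)
  have hterm : ∀ m : ℕ, ∀ w : ℂ, 0 < w.re →
      HasDerivAt (fun w => b m (w / (s m : ℂ))) (φ m (w / (s m : ℂ)) / (s m : ℂ)) w := by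
    intro m w hw
    have hs := S.s_pos m
    have h1 : HasDerivAt (fun y : ℂ => y / (s m : ℂ)) (1 / (s m : ℂ)) w :=
      (hasDerivAt_id w).div_const _
    have h2 := ((S.fold m).dβ (w / (s m : ℂ)) (by rw [re_div']; positivity)).comp w h1
    refine h2.congr_deriv ?_
    ring
  have htail : HasDerivAt (fun w => ∑' k, b (k + (n + 1)) (w / (s (k + (n + 1)) : ℂ)))
      (∑' k, φ (k + (n + 1)) (z / (s (k + (n + 1)) : ℂ)) / (s (k + (n + 1)) : ℂ)) z := by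
    have hu : Summable fun k => C₁ * s (k + (n + 1)) / (‖z‖ / 2) ^ 2 :=
      ((S.summable_s hC₁ hδ (n + 1)).mul_left C₁).div_const _
    have hg' : ∀ k : ℕ, ∀ w ∈ Metric.ball z (z.re / 2),
        ‖(fun (k : ℕ) (w : ℂ) => φ (k + (n + 1)) (w / (s (k + (n + 1)) : ℂ)) /
          (s (k + (n + 1)) : ℂ)) k w‖ ≤ C₁ * s (k + (n + 1)) / (‖z‖ / 2) ^ 2 := by
      intro k w hw
      obtain ⟨h1, h2⟩ := hball w hw
      refine (S.φ_far' (by linarith) h1 _ (S.far hC₁ hδ (hball' w hw) k)).trans ?_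
      have hs := S.s_pos (k + (n + 1))
      have : 0 < ‖z‖ / 2 := by linarith
      gcongr
    exact hasDerivAt_tsum_of_isPreconnected
      (g := fun (k : ℕ) (w : ℂ) => b (k + (n + 1)) (w / (s (k + (n + 1)) : ℂ)))
      (g' := fun (k : ℕ) (w : ℂ) => φ (k + (n + 1)) (w / (s (k + (n + 1)) : ℂ)) /
          (s (k + (n + 1)) : ℂ)) hu Metric.isOpen_ball
      (convex_ball z (z.re / 2)).isPreconnected
      (fun k w hw => hterm (k + (n + 1)) w (hball w hw).1) hg' hmem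
      (S.summable_b hC₁ hδ hz (hball' z hmem)) hmem
  have hfin : HasDerivAt (fun w => ∑ m ∈ Finset.range n, b m (w / (s m : ℂ)))
      (∑ m ∈ Finset.range n, φ m (z / (s m : ℂ)) / (s m : ℂ)) z :=
    HasDerivAt.fun_sum fun m _ => hterm m z hz
  have hall := (hfin.add (hterm n z hz)).add htail
  rw [S.B'_eq hC₁ hδ hz (hball' z hmem)]
  refine hall.congr_of_eventuallyEq ?_
  filter_upwards [Metric.isOpen_ball.mem_nhds hmem] with w hw
  exact S.B_eq hC₁ hδ (hball w hw).1 (hball' w hw)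

end

end Pool.Agent.H50.IS
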