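import Mathlib
import Pool.Agent.H50.IS.Sum

/-! # Sharp version: the norm -/

open Complex Set Filter Topology

namespace Pool.Agent.H50.IS

section

variable {C₁ Λ δ : ℝ} {b φ g : ℕ → ℂ → ℂ} {ζ : ℕ → ℂ} {a s M : ℕ → ℝ}
  (S : Seq C₁ Λ δ b φ g ζ a s M) (hC₁ : 100 ≤ C₁) (hδ : δ ≤ 1 / (10000 * C₁ ^ 4)) (hΛ : 1 ≤ Λ)

include S

lemma Seq.M0_le (hC : 0 ≤ C₁) (n : ℕ) : M 0 ≤ M n := by
  induction n with
  | zero => exact le_rfl
  | succ n ih =>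
    rw [S.M_succ]
    have h1 := S.a_pos n
    have h2 := S.s_pos n
    have : 0 ≤ C₁ / (a n ^ 2 * s n) := by positivity
    linarith

lemma Seq.head_norm {z : ℂ} (hz : 0 < z.re) (n : ℕ) :
    ‖∑ m ∈ Finset.range n, φ m (z / (s m : ℂ)) / (s m : ℂ)‖ ≤ M n - M 0 := by
  rw [← S.M_eq]
  exact (norm_sum_le _ _).trans (Finset.sum_le_sum fun m _ => S.φ_near hz m)

include hΛ in
lemma Seq.sM_le (n : ℕ) : s n * M n ≤ a n := by
  rw [S.a_eq]
  have h1 := S.s_pos n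
  have h2 := S.M_ge n
  have h3 : 0 < M n * s n := by positivity
  nlinarith

include hC₁ hδ hΛ in
lemma Seq.yM_le (n : ℕ) : y a s n * M (n + 1) ≤ 2 * C₁ * a n := by
  have h1 := S.s_pos n
  have h2 := S.a_pos n
  have h3 := S.sM_le hΛ n
  have h4 := S.a_le_one hC₁ hδ n
  have h5 := S.M_ge n
  rw [S.M_succ, y]
  have e : s n * a n ^ 3 * (M n + C₁ / (a n ^ 2 * s n)) = a n ^ 3 * (s n * M n) + C₁ * a n := by
    field_simp
  rw [e]
  have h6 : a n ^ 3 * (s n * M n) ≤ a n ^ 3 * a n := by gcongr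
  have h7 : a n ^ 3 ≤ 1 := pow_le_one₀ h2.le (by linarith)
  have h8 : a n ^ 3 * a n ≤ 1 * a n := by gcongr
  nlinarith

include hC₁ hδ hΛ in
lemma Seq.yM_le' (n : ℕ) : y a s n * M (n + 1) ≤ 1 / 5000 := by
  have h1 := S.yM_le hC₁ hδ hΛ n
  have h2 := S.a_le n
  have h3 := C1_mul_δ hC₁ hδ S.δ_pos_s.le
  have h4 := S.a_pos n
  nlinarith

include hC₁ hδ in
/-- the norm in the `n`-th region -/
theorem Seq.norm_le {n : ℕ} {z : ℂ} (hz : 0 < z.re) (h : y a s n / 2 ≤ ‖z‖) :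
    2 * z.re * ‖B' φ s z‖ ≤ 1 + (2 + C₁ * Λ + 16 * C₁) * M n * z.re := by
  have hy := S.y_pos_s hC₁ hδ n
  have hs := S.s_pos n
  have hz0 : 0 < ‖z‖ := by linarith
  have hM := S.M_ge n
  have hM0 := S.M_ge 0
  have t1 := S.head_norm hz n
  have t2 : 2 * z.re * ‖φ n (z / (s n : ℂ)) / (s n : ℂ)‖ ≤ 1 + C₁ * Λ * M n * z.re := by
    have h1 := (S.fold n).norm (z / (s n : ℂ)) (by rw [re_div']; positivity)
    rw [re_div'] at h1
    rw [norm_div'' _ hs]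
    have e1 : 2 * z.re * (‖φ n (z / (s n : ℂ))‖ / s n) =
        2 * (z.re / s n) * ‖φ n (z / (s n : ℂ))‖ := by ring
    rw [e1]
    refine h1.trans (le_of_eq ?_)
    rw [S.a_eq n]
    field_simp
  have t3 : ‖∑' k, φ (k + (n + 1)) (z / (s (k + (n + 1)) : ℂ)) / (s (k + (n + 1)) : ℂ)‖ ≤
      8 * C₁ := by
    refine (S.tail'_le hC₁ hδ hz h).trans ?_
    have h4 := S.s_succ n
    rw [div_le_iff₀ (by positivity)]
    have h5 : 2 * C₁ * s (n + 1) ≤ 2 * C₁ * y a s n ^ 2 := by gcongr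
    have h6 : 8 * C₁ * (y a s n / 2) ^ 2 ≤ 8 * C₁ * ‖z‖ ^ 2 := by gcongr
    nlinarith
  rw [S.B'_eq hC₁ hδ hz h]
  have h2z : 0 ≤ 2 * z.re := by linarith
  calc 2 * z.re * ‖∑ m ∈ Finset.range n, φ m (z / (s m : ℂ)) / (s m : ℂ) +
        φ n (z / (s n : ℂ)) / (s n : ℂ) +
        ∑' k, φ (k + (n + 1)) (z / (s (k + (n + 1)) : ℂ)) / (s (k + (n + 1)) : ℂ)‖
      ≤ 2 * z.re * ((M n - M 0) + ‖φ n (z / (s n : ℂ)) / (s n : ℂ)‖ + 8 * C₁) := by
        apply mul_le_mul_of_nonneg_left _ h2z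
        exact (norm_add_le _ _).trans (add_le_add ((norm_add_le _ _).trans
          (add_le_add t1 le_rfl)) t3)
    _ = 2 * z.re * (M n - M 0) + 2 * z.re * ‖φ n (z / (s n : ℂ)) / (s n : ℂ)‖ +
        16 * C₁ * z.re := by ring
    _ ≤ 2 * z.re * M n + (1 + C₁ * Λ * M n * z.re) + 16 * C₁ * M n * z.re := by
        have e1 : 2 * z.re * (M n - M 0) ≤ 2 * z.re * M n := by
          apply mul_le_mul_of_nonneg_left _ h2z
          linarith
        have e2 : 16 * C₁ * z.re ≤ 16 * C₁ * M n * z.re := by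
          have : 0 ≤ 16 * C₁ * z.re := by positivity
          nlinarith
        linarith
    _ = 1 + (2 + C₁ * Λ + 16 * C₁) * M n * z.re := by ring

include hC₁ hδ in
/-- the norm far away from scale `n` -/
theorem Seq.norm_far {n : ℕ} {z : ℂ} (hz : 0 < z.re) (h : 8 * C₁ * s n ≤ ‖z‖) :
    2 * z.re * ‖B' φ s z‖ ≤ 2 * ‖z‖ * (M n - M 0) + 6 * C₁ * s n / ‖z‖ := by
  have hy := S.y_le_s hC₁ hδ n
  have hs := S.s_pos n
  have hCs : s n ≤ C₁ * s n := by nlinarith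
  have h' : y a s n / 2 ≤ ‖z‖ := by
    have := S.y_pos_s hC₁ hδ n
    linarith
  have hC0 : 0 < C₁ := by linarith
  have hz0 : 0 < ‖z‖ := lt_of_lt_of_le (by positivity) h
  have hre : z.re ≤ ‖z‖ := (le_abs_self _).trans (abs_re_le_norm z)
  have t1 := S.head_norm hz n
  have t2 := S.φ_far' hC0 hz n (by nlinarith)
  have t3 := S.tail'_le hC₁ hδ hz h'
  have hsn := S.s_half hC₁ hδ n
  have hM0 := S.M0_le hC0.le n
  rw [S.B'_eq hC₁ hδ hz h']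
  have h2z : 0 ≤ 2 * z.re := by linarith
  have e3 : 2 * C₁ * s (n + 1) / ‖z‖ ^ 2 ≤ 2 * C₁ * s n / ‖z‖ ^ 2 := by
    have : s (n + 1) ≤ s n := by linarith
    gcongr
  have e4 : 2 * z.re * (3 * C₁ * s n / ‖z‖ ^ 2) ≤ 6 * C₁ * s n / ‖z‖ := by
    calc 2 * z.re * (3 * C₁ * s n / ‖z‖ ^ 2) ≤ 2 * ‖z‖ * (3 * C₁ * s n / ‖z‖ ^ 2) := by gcongr
      _ = 6 * C₁ * s n / ‖z‖ := by field_simp; ring
  calc 2 * z.re * ‖∑ m ∈ Finset.range n, φ m (z / (s m : ℂ)) / (s m : ℂ) +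
        φ n (z / (s n : ℂ)) / (s n : ℂ) +
        ∑' k, φ (k + (n + 1)) (z / (s (k + (n + 1)) : ℂ)) / (s (k + (n + 1)) : ℂ)‖
      ≤ 2 * z.re * ((M n - M 0) + C₁ * s n / ‖z‖ ^ 2 + 2 * C₁ * s n / ‖z‖ ^ 2) := by
        apply mul_le_mul_of_nonneg_left _ h2z
        exact (norm_add_le _ _).trans (add_le_add ((norm_add_le _ _).trans
          (add_le_add t1 t2)) (t3.trans e3))
    _ = 2 * z.re * (M n - M 0) + 2 * z.re * (3 * C₁ * s n / ‖z‖ ^ 2) := by ring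
    _ ≤ 2 * ‖z‖ * (M n - M 0) + 6 * C₁ * s n / ‖z‖ := by
        have : 2 * z.re * (M n - M 0) ≤ 2 * ‖z‖ * (M n - M 0) := by
          apply mul_le_mul_of_nonneg_right _ (by linarith)
          linarith
        linarith

include hC₁ hδ in
lemma Seq.exists_y {z : ℂ} (hz : 0 < z.re) :
    ∃ n, y a s n ≤ ‖z‖ ∧ ∀ m, n = m + 1 → ‖z‖ ≤ y a s m := by
  have hz0 : 0 < ‖z‖ := lt_of_lt_of_le hz ((le_abs_self _).trans (abs_re_le_norm z))
  have hex : ∃ n, y a s n ≤ ‖z‖ := by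
    obtain ⟨n, hn⟩ := exists_pow_lt_of_lt_one hz0 (show (1 / 2 : ℝ) < 1 by norm_num)
    refine ⟨n, ?_⟩
    have h1 := S.y_le_s hC₁ hδ n
    have h2 := S.s_add hC₁ hδ 0 n
    have h3 := S.s_pos n
    have h4 := S.s_le 0
    have h5 := S.δ_le hC₁ hδ
    rw [add_zero] at h2
    have h6 : (0 : ℝ) < (1 / 2) ^ n := by positivity
    nlinarith
  classical
  refine ⟨Nat.find hex, Nat.find_spec hex, ?_⟩
  intro m hm
  have := Nat.find_min hex (m := m) (by omega)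
  push Not at this
  exact this.le

include hC₁ hδ hΛ in
/-- the norm, all cases -/
theorem Seq.norm_all {z : ℂ} (hz : 0 < z.re) : 2 * z.re * ‖B' φ s z‖ ≤ 1 ∨
    ∃ n, ‖z‖ ≤ 8 * C₁ * s n ∧
      2 * z.re * ‖B' φ s z‖ ≤ 1 + (2 + C₁ * Λ + 16 * C₁) * M n * z.re := by
  obtain ⟨n, hn, hn'⟩ := S.exists_y hC₁ hδ hz
  have hy := S.y_pos_s hC₁ hδ n
  by_cases hcase : ‖z‖ ≤ 8 * C₁ * s n
  · exact Or.inr ⟨n, hcase, S.norm_le hC₁ hδ hz (by linarith)⟩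
  · left
    push Not at hcase
    have h1 := S.norm_far hC₁ hδ hz hcase.le
    have hs := S.s_pos n
    have hC0 : 0 < C₁ := by linarith
    have hz0 : 0 < ‖z‖ := lt_trans (by positivity) hcase
    have h2 : 6 * C₁ * s n / ‖z‖ ≤ 3 / 4 := by
      rw [div_le_iff₀ hz0]
      linarith
    cases n with
    | zero => simp only [sub_self, mul_zero, zero_add] at h1; linarith
    | succ m =>
      have h3 := hn' m rfl
      have h4 := S.yM_le' hC₁ hδ hΛ m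
      have h5 := S.M_ge (m + 1)
      have h6 := S.M_ge 0
      have h7 : 2 * ‖z‖ * (M (m + 1) - M 0) ≤ 2 * (y a s m * M (m + 1)) := by
        calc 2 * ‖z‖ * (M (m + 1) - M 0) ≤ 2 * ‖z‖ * M (m + 1) := by
              apply mul_le_mul_of_nonneg_left _ (by positivity)
              linarith
          _ ≤ 2 * y a s m * M (m + 1) := by gcongr
          _ = 2 * (y a s m * M (m + 1)) := by ring
      linarith

include hC₁ hδ in
theorem Seq.norm_B_far {z : ℂ} (hz : 0 < z.re) (h : 8 * C₁ * s 0 ≤ ‖z‖) :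
    ‖B b s z‖ ≤ 3 * C₁ * s 0 / ‖z‖ := by
  have hs := S.s_pos 0
  have hC0 : 0 < C₁ := by linarith
  have hz0 : 0 < ‖z‖ := lt_of_lt_of_le (by positivity) h
  have hCs : s 0 ≤ C₁ * s 0 := by nlinarith
  have h' : y a s 0 / 2 ≤ ‖z‖ := by
    have := S.y_le_s hC₁ hδ 0
    have := S.y_pos_s hC₁ hδ 0
    linarith
  have t2 := S.b_far hC0 hz 0 (by nlinarith)
  have t3 := S.tail_le hC₁ hδ hz h'
  have hsn := S.s_half hC₁ hδ 0
  rw [S.B_eq hC₁ hδ hz h', Finset.sum_range_zero, zero_add]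
  refine (norm_add_le _ _).trans ((add_le_add t2 t3).trans ?_)
  rw [← add_div]
  have : C₁ * s 0 + 2 * C₁ * s (0 + 1) ≤ 3 * C₁ * s 0 := by
    have : s (0 + 1) ≤ s 0 := by linarith
    nlinarith
  gcongr

end

end Pool.Agent.H50.IS
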