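import Pool.Agent.H50.IV.Fold
import Pool.Agent.H50.IR.Base
import Pool.Agent.H50.IS.Defs

/-!
# The sharp fold (F)
-/

open Complex Set Filter Topology
open Pool.Agent.H51.Becker

namespace Pool.Agent.H50.IS

open Pool.Agent.H50.IV

lemma sq_lower (τ : ℂ) : 2 * ((Lam τ).re + 1) + (‖exp τ‖ - 1) ^ 2 ≤ ‖1 + exp τ‖ ^ 2 := by
  rw [A_sq, Lam_re, norm_exp]
  have h1 := Real.add_one_le_exp τ.re
  have h2 : Real.exp (2 * τ.re) = Real.exp τ.re ^ 2 := by
    rw [two_mul, Real.exp_add, sq]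
  rw [h2]
  nlinarith

lemma normSq_diff (e u : ℂ) : ‖1 + e‖ ^ 2 - ‖1 + -(e * u)‖ ^ 2 =
    2 * (e * (1 + u)).re + ‖e‖ ^ 2 * (1 - ‖u‖ ^ 2) := by
  rw [← Complex.normSq_eq_norm_sq, ← Complex.normSq_eq_norm_sq, ← Complex.normSq_eq_norm_sq,
    ← Complex.normSq_eq_norm_sq]
  simp only [Complex.normSq_apply, add_re, add_im, one_re, one_im, mul_re, mul_im, neg_re, neg_im]
  ring

lemma norm_one_add_sq (u : ℂ) : ‖1 + u‖ ^ 2 = 1 + 2 * u.re + ‖u‖ ^ 2 := by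
  rw [← Complex.normSq_eq_norm_sq, ← Complex.normSq_eq_norm_sq]
  simp only [Complex.normSq_apply, add_re, add_im, one_re, one_im]
  ring

/-- the main estimate in the coordinate `τ` -/
lemma core {a m x : ℝ} {e τ : ℂ} (ha : 0 < a) (ha' : a ≤ 1 / 50) (hm0 : 0 ≤ m) (hma : m ≤ a)
    (he : e = (m : ℂ) * exp (I * ((-a : ℝ) : ℂ))) (hx : 0 ≤ x)
    (hP : (Lam τ).re = x - Real.cos a) :
    ‖e‖ = m ∧ 2 * x + a ^ 2 / 4 ≤ ‖1 + exp τ‖ ^ 2 ∧ a / 2 ≤ ‖1 + exp τ‖ ∧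
    9 / 10 ≤ ‖1 + -(e * exp (-τ))‖ ∧ ‖1 + e‖ ≤ 11 / 10 ∧
    2 * x * ‖1 + e‖ ≤ ‖1 + -(e * exp (-τ))‖ * ‖1 + exp τ‖ ^ 2 * (1 + 101 * a * x) := by
  have ha10 : a ≤ 1 / 10 := by linarith
  have hcos5 := Pool.Agent.H50.IR.cos_le' ha ha10
  have hcos1 : Real.cos a < 1 := (cos_bound ha ha10).2
  have hre : -1 < (Lam τ).re := by rw [hP]; linarith
  have hs := sq_lower τ
  have hen : ‖e‖ = m := by
    rw [he, norm_mul, Complex.norm_real, Real.norm_of_nonneg hm0]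
    have : ‖exp (I * ((-a : ℝ) : ℂ))‖ = 1 := by
      rw [mul_comm]; exact Complex.norm_exp_ofReal_mul_I _
    rw [this, mul_one]
  set D : ℝ := ‖1 + exp τ‖ with hD
  set ρ : ℝ := ‖exp τ‖ with hρ
  set u : ℂ := exp (-τ) with hu
  set v : ℝ := ‖u‖ with hv
  have hD0 : 0 ≤ D := norm_nonneg _
  have hv5 : v < 5 := norm_exp_neg_lt hre
  have hv0 : 0 ≤ v := norm_nonneg _
  have hvρ : v * ρ = 1 := by
    rw [hv, hρ, hu, ← norm_mul, ← exp_add]; simp
  have hD2 : 2 * x + a ^ 2 / 4 + (ρ - 1) ^ 2 ≤ D ^ 2 := by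
    rw [hP] at hs
    nlinarith [sq_nonneg a]
  have hDa : a / 2 ≤ D := by
    refine le_of_sq_le_sq ?_ hD0
    nlinarith [sq_nonneg (ρ - 1)]
  have hprod : ‖1 + u‖ = D * v := by
    rw [hD, hv, ← norm_mul]
    congr 1
    rw [hu, add_mul, ← exp_add]
    simp [add_comm]
  have hW : 9 / 10 ≤ ‖1 + -(e * u)‖ := by
    have h1 : ‖(1 : ℂ)‖ - ‖e * u‖ ≤ ‖1 + -(e * u)‖ := by
      have := norm_sub_norm_le (1 : ℂ) (e * u)
      rwa [← sub_eq_add_neg]
    rw [norm_one, norm_mul, hen] at h1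
    have h2 : m * ‖u‖ ≤ 1 / 50 * 5 := by
      have : m ≤ 1 / 50 := hma.trans ha'
      have h3 : ‖u‖ ≤ 5 := hv5.le
      gcongr
    linarith
  have h1e : ‖1 + e‖ ≤ 11 / 10 := by
    have := norm_add_le (1 : ℂ) e
    rw [norm_one, hen] at this
    linarith
  -- the squares
  set w : ℝ := |ρ - 1| with hw
  have hw0 : 0 ≤ w := abs_nonneg _
  have hw2 : w ^ 2 = (ρ - 1) ^ 2 := sq_abs _
  have hv1 : |1 - v ^ 2| ≤ 30 * w := by
    have e1 : 1 - v ^ 2 = v * (ρ - 1) * (1 + v) := by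
      have : v * (ρ - 1) = 1 - v := by rw [mul_sub, hvρ, mul_one]
      rw [this]; ring
    rw [e1, abs_mul, abs_mul, abs_of_nonneg hv0, abs_of_nonneg (by linarith : (0 : ℝ) ≤ 1 + v)]
    have h2 : v * w ≤ 5 * w := by gcongr
    calc v * |ρ - 1| * (1 + v) ≤ 5 * w * (1 + v) := by gcongr
      _ ≤ 5 * w * 6 := by
        have : 0 ≤ 5 * w := by positivity
        nlinarith
      _ = 30 * w := by ring
  have hRe : 2 * (1 + u).re ≤ 25 * D ^ 2 + 30 * w := by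
    have h1 := norm_one_add_sq u
    rw [hprod, ← hv] at h1
    have h2 : (1 + u).re = 1 + u.re := by rw [add_re, one_re]
    have h3 : 2 * (1 + u).re = D ^ 2 * v ^ 2 + (1 - v ^ 2) := by
      rw [h2]; nlinarith
    have h4 : D ^ 2 * v ^ 2 ≤ D ^ 2 * 25 := by
      have : v ^ 2 ≤ 25 := by nlinarith
      gcongr
    have h5 := le_abs_self (1 - v ^ 2)
    linarith
  have hRe2 : (e * (1 + u)).re ≤ m * ((1 + u).re + a * ‖1 + u‖) := by
    have h1 : e * (1 + u) = (m : ℂ) * ((1 + u) + (exp (I * ((-a : ℝ) : ℂ)) - 1) * (1 + u)) := by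
      rw [he]; ring
    rw [h1, re_ofReal_mul, add_re]
    have h2 : ((exp (I * ((-a : ℝ) : ℂ)) - 1) * (1 + u)).re ≤ a * ‖1 + u‖ := by
      refine (re_le_norm _).trans ?_
      rw [norm_mul]
      have h3 : ‖exp (I * ((-a : ℝ) : ℂ)) - 1‖ ≤ a := by
        refine (Real.norm_exp_I_mul_ofReal_sub_one_le).trans ?_
        rw [Real.norm_eq_abs, abs_neg, abs_of_pos ha]
      gcongr
    gcongr
  have hΔ : ‖1 + e‖ ^ 2 ≤ ‖1 + -(e * u)‖ ^ 2 + m * (45 * D ^ 2 + 33 * w) := by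
    have h1 := normSq_diff e u
    rw [hen, ← hv] at h1
    have h2 : a * ‖1 + u‖ ≤ 10 * D ^ 2 := by
      rw [hprod]
      have h3 : a * (D * v) ≤ (2 * D) * (D * 5) := by
        have : a ≤ 2 * D := by linarith
        gcongr
      nlinarith
    have h4 : m ^ 2 * (1 - v ^ 2) ≤ m * (3 * w) := by
      have h5 : m ^ 2 * (1 - v ^ 2) ≤ m ^ 2 * (30 * w) := by
        have := (le_abs_self (1 - v ^ 2)).trans hv1
        gcongr
      have h6 : m ^ 2 * (30 * w) = m * (m * 30 * w) := by ring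
      have h7 : m * 30 * w ≤ 3 * w := by nlinarith
      rw [h6] at h5
      exact h5.trans (by gcongr)
    have h8 : 2 * (e * (1 + u)).re ≤ m * (25 * D ^ 2 + 30 * w + 20 * D ^ 2) := by
      calc 2 * (e * (1 + u)).re ≤ 2 * (m * ((1 + u).re + a * ‖1 + u‖)) := by linarith
        _ = m * (2 * (1 + u).re + 2 * (a * ‖1 + u‖)) := by ring
        _ ≤ m * (25 * D ^ 2 + 30 * w + 20 * D ^ 2) := by
          refine mul_le_mul_of_nonneg_left ?_ hm0
          linarith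
    nlinarith
  set W : ℝ := ‖1 + -(e * u)‖ with hWdef
  set Δ : ℝ := m * (45 * D ^ 2 + 33 * w) with hΔdef
  have hΔ0 : 0 ≤ Δ := by positivity
  have hW0 : 0 < W := by linarith
  have hratio : ‖1 + e‖ ≤ W * (1 + Δ) := by
    refine le_of_sq_le_sq ?_ (by positivity)
    have h1 : (W * (1 + Δ)) ^ 2 = W ^ 2 + W ^ 2 * Δ * 2 + W ^ 2 * Δ ^ 2 := by ring
    have h2 : 81 / 100 ≤ W ^ 2 := by nlinarith
    have h3 : Δ ≤ W ^ 2 * Δ * 2 := by nlinarith
    have h4 : 0 ≤ W ^ 2 * Δ ^ 2 := by positivity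
    rw [h1]
    linarith
  refine ⟨hen, ?_, hDa, hW, h1e, ?_⟩
  · nlinarith [sq_nonneg (ρ - 1)]
  · have key : 2 * x * (1 + Δ) ≤ D ^ 2 * (1 + 101 * a * x) := by
      have h1 : 2 * x * (1 + Δ) = 2 * x + 90 * (m * x * D ^ 2) + 66 * (m * x * w) := by
        rw [hΔdef]; ring
      have h2 : 66 * (m * x * w) ≤ w ^ 2 + 1089 * (m * x) ^ 2 := by
        nlinarith [sq_nonneg (w - 33 * (m * x))]
      have hmx : 0 ≤ m * x := by positivity
      have hxD : 2 * x ≤ D ^ 2 := by nlinarith [sq_nonneg (ρ - 1), sq_nonneg a]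
      have h3 : 1089 * (m * x) ^ 2 ≤ 11 * (m * x * D ^ 2) := by
        have h5 : m * x * x ≤ m * x * (D ^ 2 / 2) := by
          refine mul_le_mul_of_nonneg_left ?_ hmx
          linarith
        have h6 : 1089 * (m * x) ^ 2 = 1089 * m * (m * x * x) := by ring
        have h7 : 1089 * m * (m * x * x) ≤ 1089 * m * (m * x * (D ^ 2 / 2)) := by
          refine mul_le_mul_of_nonneg_left h5 (by positivity)
        have h8 : 1089 * m * (m * x * (D ^ 2 / 2)) = (1089 * m / 2) * (m * x * D ^ 2) := by ring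
        have h9 : 1089 * m / 2 ≤ 11 := by linarith
        have h10 : 0 ≤ m * x * D ^ 2 := by positivity
        rw [h6]
        refine h7.trans ?_
        rw [h8]
        exact mul_le_mul_of_nonneg_right h9 h10
      have h4 : 101 * (m * x * D ^ 2) ≤ D ^ 2 * (101 * a * x) := by
        have : m * x * D ^ 2 ≤ a * x * D ^ 2 := by gcongr
        nlinarith
      have h11 : 2 * x + w ^ 2 ≤ D ^ 2 := by
        rw [hw2]; nlinarith [sq_nonneg a]
      rw [h1]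
      nlinarith
    calc 2 * x * ‖1 + e‖ ≤ 2 * x * (W * (1 + Δ)) := by gcongr
      _ = W * (2 * x * (1 + Δ)) := by ring
      _ ≤ W * (D ^ 2 * (1 + 101 * a * x)) := by gcongr
      _ = _ := by ring

end Pool.Agent.H50.IS
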