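import Pool.Agent.H50.IR.Base

/-!
# The sharp norm estimate of the fold
-/

open Complex Set Filter Topology
open Pool.Agent.H51.Becker

namespace Pool.Agent.H50.IS

open Pool.Agent.H50.IV Pool.Agent.H50.IR

lemma norm_one_add_sq (u : ℂ) : ‖1 + u‖ ^ 2 = 1 + 2 * u.re + ‖u‖ ^ 2 := by
  rw [← Complex.normSq_eq_norm_sq, ← Complex.normSq_eq_norm_sq, Complex.normSq_apply,
    Complex.normSq_apply, add_re, add_im, one_re, one_im]
  ring

/-- real variable part -/
lemma real_part {a κ ρ r c D N M x : ℝ} (ha : 0 < a) (ha' : a ≤ 1 / 100) (hκ : 0 ≤ κ)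
    (hκa : κ ≤ a) (hρ : 0 < ρ) (hr : 0 < r) (hρr : ρ * r = 1) (hr5 : r ≤ 5) (hc : -1 ≤ c)
    (hD : 0 ≤ D) (hD2 : D ^ 2 = 1 + 2 * (ρ * c) + ρ ^ 2) (haD : 2 * a ^ 2 ≤ 5 * D ^ 2)
    (hx : 0 ≤ x) (h2x : 2 * x ≤ D ^ 2 - (ρ - 1) ^ 2) (hM : 1 / 2 ≤ M)
    (hNM : N ^ 2 - M ^ 2 ≤ 2 * (κ * ((1 + r * c) + a * (r * D))) + κ ^ 2 * (1 - r ^ 2)) :
    2 * x * N ≤ (1 + 200 * a * x) * (M * D ^ 2) := by
  set δ : ℝ := |ρ - 1| with hδ
  have hδ0 : 0 ≤ δ := abs_nonneg _
  have hδ1 : ρ - 1 ≤ δ := le_abs_self _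
  have hδ2 : -δ ≤ ρ - 1 := neg_abs_le _
  have hδsq : δ ^ 2 = (ρ - 1) ^ 2 := sq_abs _
  have haD' : a ≤ 16 / 10 * D := by
    refine le_of_sq_le_sq ?_ (by positivity)
    nlinarith
  have e1 : r * (1 + c) ≤ 25 / 2 * D ^ 2 := by
    have h1 : 2 * ρ * (1 + c) ≤ D ^ 2 := by nlinarith [sq_nonneg (ρ - 1)]
    have h2 : r * (1 + c) = (r ^ 2 / 2) * (2 * ρ * (1 + c)) := by
      have : r * (1 + c) = r * (1 + c) * (ρ * r) := by rw [hρr, mul_one]
      rw [this]; ring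
    rw [h2]
    have h3 : r ^ 2 / 2 ≤ 25 / 2 := by nlinarith
    have h4 : 0 ≤ 2 * ρ * (1 + c) := by
      have : 0 ≤ 1 + c := by linarith
      positivity
    calc r ^ 2 / 2 * (2 * ρ * (1 + c)) ≤ 25 / 2 * (2 * ρ * (1 + c)) :=
          mul_le_mul_of_nonneg_right h3 h4
      _ ≤ 25 / 2 * D ^ 2 := mul_le_mul_of_nonneg_left h1 (by norm_num)
  have e2 : r * (ρ - 1) ≤ 5 * δ := by
    calc r * (ρ - 1) ≤ r * δ := mul_le_mul_of_nonneg_left hδ1 hr.le
      _ ≤ 5 * δ := mul_le_mul_of_nonneg_right hr5 hδ0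
  have e3 : a * (r * D) ≤ 8 * D ^ 2 := by
    calc a * (r * D) ≤ (16 / 10 * D) * (5 * D) :=
          mul_le_mul haD' (mul_le_mul_of_nonneg_right hr5 hD) (by positivity) (by positivity)
      _ = 8 * D ^ 2 := by ring
  have e4 : κ ^ 2 * (1 - r ^ 2) ≤ κ * δ := by
    have h1 : 1 - r ^ 2 ≤ 2 * δ := by
      rcases le_or_gt ρ 1 with h | h
      · have h2 : 1 ≤ r := by
          by_contra hcon
          push Not at hcon
          have : ρ * r < 1 := by nlinarith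
          linarith
        nlinarith
      · have h2 : r < 1 := by
          by_contra hcon
          push Not at hcon
          have : 1 < ρ * r := by nlinarith
          linarith
        have h3 : 1 - r = r * (ρ - 1) := by linarith [hρr]
        have h4 : r * (ρ - 1) ≤ 1 * δ := mul_le_mul h2.le hδ1 (by linarith) zero_le_one
        have h5 : 1 - r ^ 2 = (1 - r) * (1 + r) := by ring
        have h6 : (1 - r) * (1 + r) ≤ (1 - r) * 2 :=
          mul_le_mul_of_nonneg_left (by linarith) (by linarith)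
        linarith
    calc κ ^ 2 * (1 - r ^ 2) ≤ κ ^ 2 * (2 * δ) := mul_le_mul_of_nonneg_left h1 (sq_nonneg κ)
      _ = κ * (2 * κ * δ) := by ring
      _ ≤ κ * (1 * δ) := by
          refine mul_le_mul_of_nonneg_left (mul_le_mul_of_nonneg_right ?_ hδ0) hκ
          linarith
      _ = κ * δ := by ring
  have e5 : N ^ 2 - M ^ 2 ≤ κ * (41 * D ^ 2 + 11 * δ) := by
    have h1 : (1 + r * c) + a * (r * D) ≤ 41 / 2 * D ^ 2 + 5 * δ := by
      have : 1 + r * c = r * (1 + c) + r * (ρ - 1) := by linarith [hρr]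
      linarith
    have h2 := mul_le_mul_of_nonneg_left h1 hκ
    nlinarith
  have hT0 : 0 ≤ κ * (41 * D ^ 2 + 11 * δ) := by positivity
  have e6 : N ≤ M * (1 + 2 * (κ * (41 * D ^ 2 + 11 * δ))) := by
    have h1 : κ * (41 * D ^ 2 + 11 * δ) ≤ M * (2 * (κ * (41 * D ^ 2 + 11 * δ))) := by
      nlinarith
    rcases le_or_gt N M with h | h
    · nlinarith
    · have h2 : N - M ≤ N ^ 2 - M ^ 2 := by
        have h3 : 1 ≤ N + M := by linarith
        have h4 : N ^ 2 - M ^ 2 = (N - M) * (N + M) := by ring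
        rw [h4]
        nlinarith
      nlinarith
  have hM0 : 0 < M := by linarith
  have e7 : 2 * x * (1 + 2 * (κ * (41 * D ^ 2 + 11 * δ))) ≤ (1 + 200 * a * x) * D ^ 2 := by
    have hD20 : 0 ≤ D ^ 2 := sq_nonneg D
    have h1 : 44 * (κ * x * δ) ≤ δ ^ 2 + 484 * (κ * x) ^ 2 := by
      nlinarith [sq_nonneg (δ - 22 * (κ * x))]
    have h2 : (κ * x) ^ 2 ≤ a * x * D ^ 2 / 200 := by
      have h3 : x * x ≤ x * (D ^ 2 / 2) := by
        refine mul_le_mul_of_nonneg_left ?_ hx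
        have := sq_nonneg (ρ - 1)
        linarith
      have h4 : κ ^ 2 ≤ a / 100 := by nlinarith
      calc (κ * x) ^ 2 = κ ^ 2 * (x * x) := by ring
        _ ≤ a / 100 * (x * (D ^ 2 / 2)) :=
            mul_le_mul h4 h3 (by positivity) (by positivity)
        _ = a * x * D ^ 2 / 200 := by ring
    have h5 : κ * (x * D ^ 2) ≤ a * (x * D ^ 2) :=
      mul_le_mul_of_nonneg_right hκa (by positivity)
    have h6 : 0 ≤ a * (x * D ^ 2) := by positivity
    have h7 : 2 * x * (1 + 2 * (κ * (41 * D ^ 2 + 11 * δ))) =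
        2 * x + 164 * (κ * (x * D ^ 2)) + 44 * (κ * x * δ) := by ring
    rw [h7]
    have h8 : (1 + 200 * a * x) * D ^ 2 = D ^ 2 + 200 * (a * (x * D ^ 2)) := by ring
    rw [h8]
    have h9 : a * x * D ^ 2 / 200 = (a * (x * D ^ 2)) / 200 := by ring
    rw [h9] at h2
    rw [← hδsq] at h2x
    linarith
  calc 2 * x * N ≤ 2 * x * (M * (1 + 2 * (κ * (41 * D ^ 2 + 11 * δ)))) :=
        mul_le_mul_of_nonneg_left e6 (by positivity)
    _ = M * (2 * x * (1 + 2 * (κ * (41 * D ^ 2 + 11 * δ)))) := by ring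
    _ ≤ M * ((1 + 200 * a * x) * D ^ 2) := mul_le_mul_of_nonneg_left e7 hM0.le
    _ = (1 + 200 * a * x) * (M * D ^ 2) := by ring

/-- NORM -/
lemma norm_est {a κ x : ℝ} {e τ : ℂ} (ha : 0 < a) (ha' : a ≤ 1 / 100) (hκ : 0 ≤ κ)
    (hκa : κ ≤ a) (he : e = κ * exp (-(a * I))) (hx : 0 ≤ x)
    (hP : (Lam τ).re = x - Real.cos a) :
    2 * x * ‖1 + e‖ ≤
      (1 + 200 * a * x) * (‖1 + -(e * exp (-τ))‖ * ‖1 + exp τ‖ ^ 2) := by
  have hcos := cos_le' ha (by linarith)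
  have hre : -1 < (Lam τ).re := by
    rw [hP]
    nlinarith [sq_pos_of_pos ha]
  have hr5 := (norm_exp_neg_lt hre).le
  have hnr : ‖exp (-τ)‖ = Real.exp (-τ.re) := by rw [norm_exp, neg_re]
  rw [hnr] at hr5
  have hρr : Real.exp τ.re * Real.exp (-τ.re) = 1 := by
    rw [← Real.exp_add, add_neg_cancel, Real.exp_zero]
  have hD2 := A_sq τ
  have hρ2 : Real.exp (2 * τ.re) = Real.exp τ.re ^ 2 := by
    rw [← Real.exp_nat_mul]; norm_num
  rw [hρ2] at hD2
  rw [Lam_re] at hP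
  have hlog : τ.re ≤ Real.exp τ.re - 1 := by
    have := Real.add_one_le_exp τ.re
    linarith
  have hEn : ‖exp (-((a : ℂ) * I))‖ = 1 := by
    rw [norm_exp]
    simp
  have hen : ‖e‖ = κ := by
    rw [he, norm_mul, hEn, norm_real, Real.norm_eq_abs, abs_of_nonneg hκ, mul_one]
  have hE1 : ‖exp (-((a : ℂ) * I)) - 1‖ ≤ a := by
    have h1 := Real.norm_exp_I_mul_ofReal_sub_one_le (x := -a)
    rw [norm_neg, Real.norm_eq_abs, abs_of_pos ha] at h1
    refine le_trans (le_of_eq ?_) h1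
    congr 3
    push_cast
    ring
  have hM : 1 / 2 ≤ ‖1 + -(e * exp (-τ))‖ := by
    have h1 := norm_e_lt (e := e) (by rw [hen]; linarith) hre
    have h2 := norm_sub_le (1 + -(e * exp (-τ))) (-(e * exp (-τ)))
    rw [add_sub_cancel_right, norm_one] at h2
    linarith
  have hfac : ‖1 + exp (-τ)‖ = Real.exp (-τ.re) * ‖1 + exp τ‖ := by
    rw [← hnr, ← norm_mul]
    congr 1
    rw [mul_add, ← exp_add, neg_add_cancel, exp_zero]
    ring
  have hWre : (1 + exp (-τ)).re = 1 + Real.exp (-τ.re) * Real.cos τ.im := by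
    rw [add_re, one_re, exp_re, neg_re, neg_im, Real.cos_neg]
  refine real_part (ρ := Real.exp τ.re) (r := Real.exp (-τ.re)) (c := Real.cos τ.im)
    (κ := κ) ha ha' hκ hκa (Real.exp_pos _) (Real.exp_pos _) hρr hr5 (Real.neg_one_le_cos _)
    (norm_nonneg _) hD2 ?_ hx ?_ hM ?_
  · have h0 := sq_nonneg (Real.exp τ.re - 1)
    nlinarith
  · nlinarith
  · rw [norm_one_add_sq e, norm_one_add_sq (-(e * exp (-τ))), norm_neg, norm_mul, hnr, hen]
    have h1 : (e * (1 + exp (-τ))).re ≤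
        κ * ((1 + Real.exp (-τ.re) * Real.cos τ.im) +
          a * (Real.exp (-τ.re) * ‖1 + exp τ‖)) := by
      have h2 : (e * (1 + exp (-τ))).re =
          κ * ((1 + exp (-τ)).re + ((exp (-((a : ℂ) * I)) - 1) * (1 + exp (-τ))).re) := by
        have : e * (1 + exp (-τ)) =
            (κ : ℂ) * ((1 + exp (-τ)) + (exp (-((a : ℂ) * I)) - 1) * (1 + exp (-τ))) := by
          rw [he]; ring
        rw [this, re_ofReal_mul, add_re]
      rw [h2, hWre]
      refine mul_le_mul_of_nonneg_left (add_le_add le_rfl ?_) hκ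
      refine (re_le_norm _).trans ?_
      rw [norm_mul, hfac]
      exact mul_le_mul_of_nonneg_right hE1 (by positivity)
    have h3 : (e * (1 + exp (-τ))).re = e.re + (e * exp (-τ)).re := by
      rw [mul_add, mul_one, add_re]
    rw [h3] at h1
    rw [neg_re]
    nlinarith

end Pool.Agent.H50.IS
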