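import Pool.Agent.H50.IR.Base

/-!
# The path of the sharp fold
-/

open Complex Set Filter Topology
open Pool.Agent.H51.Becker

namespace Pool.Agent.H50.IS

open Pool.Agent.H50.IV Pool.Agent.H50.IR

lemma cos_ge_of_abs {ψ b : ℝ} (hb : 0 ≤ b) (h : |ψ| ≤ Real.pi - b) :
    -Real.cos b ≤ Real.cos ψ := by
  rw [← Real.cos_pi_sub, ← Real.cos_abs ψ]
  exact Real.cos_le_cos_of_nonneg_of_le_pi (abs_nonneg _) (by linarith) h

lemma norm_one_add_exp_mul_I (ψ : ℝ) : ‖1 + exp ((ψ : ℂ) * I)‖ ^ 2 = 2 + 2 * Real.cos ψ := by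
  have h := A_sq ((ψ : ℂ) * I)
  have h1 : ((ψ : ℂ) * I).re = 0 := by simp
  have h2 : ((ψ : ℂ) * I).im = ψ := by simp
  rw [h1, h2, mul_zero, Real.exp_zero] at h
  linarith

/-- PATH -/
lemma path_est {a : ℝ} {e τ₁ τ₂ : ℂ} (ha : 0 < a) (ha' : a ≤ 1 / 100) (he : ‖e‖ ≤ a)
    (h₁ : τ₁ = ((Real.pi - 3 * a : ℝ) : ℂ) * I) (h₂ : τ₂ = ((-(Real.pi - a) : ℝ) : ℂ) * I)
    (p : ℝ) (hp : 0 < p) (hpa : p ≤ a ^ 3) :
    ∃ γ γ' : ℝ → ℂ, γ 0 = (p : ℂ) ∧ γ 1 = Lam τ₁ - Lam τ₂ ∧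
      ∀ t ∈ Icc (0 : ℝ) 1, HasDerivAt γ (γ' t) t ∧ p / 2 ≤ (γ t).re ∧ ‖γ t‖ ≤ 100 ∧
        ‖exp (L e (inv (γ t + Lam τ₂)))‖ * ‖γ' t‖ ≤ 100 := by
  have hpi3 := Real.pi_gt_three
  have hpi4 := Real.pi_lt_four
  have ha2 : 0 < a ^ 2 := by positivity
  have ha3 : a ^ 3 ≤ a ^ 2 / 100 := by nlinarith
  have hcosa := cos_le' ha (by linarith)
  have hcos3 := cos_le' (a := 3 * a) (by linarith) (by linarith)
  have hcosa' := Real.one_sub_sq_div_two_le_cos (x := a)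
  set ψ : ℝ → ℝ := fun t => -(Real.pi - a) + t * (2 * Real.pi - 4 * a) with hψ
  have hψ0 : ψ 0 = -(Real.pi - a) := by simp [hψ]
  have hψ1 : ψ 1 = Real.pi - 3 * a := by simp only [hψ]; ring
  have hψd : ∀ t, HasDerivAt ψ (2 * Real.pi - 4 * a) t := by
    intro t
    have := ((hasDerivAt_id t).mul_const (2 * Real.pi - 4 * a)).const_add (-(Real.pi - a))
    simpa [hψ] using this
  refine ⟨fun t => Lam ((ψ t : ℂ) * I) - Lam τ₂ + (((1 - t) * p : ℝ) : ℂ),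
    fun t => (1 + exp ((ψ t : ℂ) * I)) * (((2 * Real.pi - 4 * a : ℝ) : ℂ) * I) + ((-p : ℝ) : ℂ),
    ?_, ?_, ?_⟩
  · show Lam ((ψ 0 : ℂ) * I) - Lam τ₂ + (((1 - 0) * p : ℝ) : ℂ) = _
    rw [hψ0, ← h₂, sub_self, zero_add, sub_zero, one_mul]
  · show Lam ((ψ 1 : ℂ) * I) - Lam τ₂ + (((1 - 1) * p : ℝ) : ℂ) = _
    rw [hψ1, ← h₁, sub_self, zero_mul, ofReal_zero, add_zero]
  intro t ht
  obtain ⟨ht0, ht1⟩ := ht
  have hℓ : 0 ≤ 2 * Real.pi - 4 * a := by linarith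
  have hψabs : |ψ t| ≤ Real.pi - a := by
    rw [abs_le]
    have e1 : 0 ≤ t * (2 * Real.pi - 4 * a) := mul_nonneg ht0 hℓ
    have e2 : t * (2 * Real.pi - 4 * a) ≤ 1 * (2 * Real.pi - 4 * a) :=
      mul_le_mul_of_nonneg_right ht1 hℓ
    constructor <;> simp only [hψ] <;> linarith
  have hc := cos_ge_of_abs ha.le hψabs
  have hcle := Real.cos_le_one (ψ t)
  have hpt : 0 ≤ (1 - t) * p := mul_nonneg (by linarith) hp.le
  have hLre : (Lam ((ψ t : ℂ) * I)).re = Real.cos (ψ t) := by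
    rw [Lam_re]; simp
  have hL2re : (Lam τ₂).re = -Real.cos a := by
    rw [h₂, Lam_re]
    simp
  have hLn : ∀ s : ℝ, |s| ≤ Real.pi - a → ‖Lam ((s : ℂ) * I)‖ ≤ 5 := by
    intro s hs
    have h1 : ‖Lam ((s : ℂ) * I)‖ ≤ ‖(s : ℂ) * I‖ + ‖exp ((s : ℂ) * I)‖ := norm_add_le _ _
    rw [norm_exp_ofReal_mul_I, norm_mul, norm_I, mul_one, norm_real, Real.norm_eq_abs] at h1
    linarith
  have hL2n : ‖Lam τ₂‖ ≤ 5 := by
    rw [h₂]
    refine hLn _ ?_
    rw [abs_neg, abs_of_pos (by linarith)]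
  refine ⟨?_, ?_, ?_, ?_⟩
  · have d1 : HasDerivAt (fun t : ℝ => (ψ t : ℂ) * I)
        (((2 * Real.pi - 4 * a : ℝ) : ℂ) * I) t := (hψd t).ofReal_comp.mul_const I
    have d2 : HasDerivAt (fun t : ℝ => Lam ((ψ t : ℂ) * I))
        ((1 + exp ((ψ t : ℂ) * I)) * (((2 * Real.pi - 4 * a : ℝ) : ℂ) * I)) t :=
      HasDerivAt.comp (h₂ := Lam) (h := fun t : ℝ => (ψ t : ℂ) * I) t
        (hasStrictDerivAt_Lam ((ψ t : ℂ) * I)).hasDerivAt d1
    have d3 : HasDerivAt (fun t : ℝ => (1 - t) * p) (-p) t := by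
      have := ((hasDerivAt_id t).const_sub 1).mul_const p
      simpa using this
    exact (d2.sub_const (Lam τ₂)).add d3.ofReal_comp
  · rw [add_re, sub_re, hLre, hL2re, ofReal_re]
    rcases le_or_gt t (1 / 2) with h | h
    · have : p / 2 ≤ (1 - t) * p := by nlinarith
      linarith
    · have hψ3 : |ψ t| ≤ Real.pi - 3 * a := by
        rw [abs_le]
        have e1 : 1 / 2 * (2 * Real.pi - 4 * a) ≤ t * (2 * Real.pi - 4 * a) :=
          mul_le_mul_of_nonneg_right h.le hℓ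
        have e2 : t * (2 * Real.pi - 4 * a) ≤ 1 * (2 * Real.pi - 4 * a) :=
          mul_le_mul_of_nonneg_right ht1 hℓ
        constructor <;> simp only [hψ] <;> linarith
      have hc3 := cos_ge_of_abs (by linarith : (0 : ℝ) ≤ 3 * a) hψ3
      nlinarith
  · have h1 := hLn (ψ t) hψabs
    have h2 : ‖(((1 - t) * p : ℝ) : ℂ)‖ ≤ 1 := by
      rw [norm_real, Real.norm_eq_abs, abs_of_nonneg hpt]
      nlinarith
    have h3 := norm_add_le (Lam ((ψ t : ℂ) * I) - Lam τ₂) (((1 - t) * p : ℝ) : ℂ)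
    have h4 := norm_sub_le (Lam ((ψ t : ℂ) * I)) (Lam τ₂)
    linarith
  · have hP : Lam ((ψ t : ℂ) * I) - Lam τ₂ + (((1 - t) * p : ℝ) : ℂ) + Lam τ₂ =
        Lam ((ψ t : ℂ) * I) + (((1 - t) * p : ℝ) : ℂ) := by ring
    show ‖exp (L e (inv (Lam ((ψ t : ℂ) * I) - Lam τ₂ + (((1 - t) * p : ℝ) : ℂ) + Lam τ₂)))‖ *
      ‖(1 + exp ((ψ t : ℂ) * I)) * (((2 * Real.pi - 4 * a : ℝ) : ℂ) * I) + ((-p : ℝ) : ℂ)‖ ≤ 100
    rw [hP]
    set P : ℂ := Lam ((ψ t : ℂ) * I) + (((1 - t) * p : ℝ) : ℂ) with hPdef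
    have hPre : P.re = Real.cos (ψ t) + (1 - t) * p := by
      rw [hPdef, add_re, hLre, ofReal_re]
    have hP1 : -1 < P.re := by rw [hPre]; nlinarith
    have hτ := inv_mem hP1
    have hLi : Lam (inv P) = P := Lam_inv hP1
    have hre : -1 < (Lam (inv P)).re := by rw [hLi]; exact hP1
    rw [exp_L (he.trans (by linarith)) hτ hre]
    set q : ℝ := ‖1 + exp ((ψ t : ℂ) * I)‖ with hq
    have hq2 : q ^ 2 = 2 + 2 * Real.cos (ψ t) := norm_one_add_exp_mul_I (ψ t)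
    have hq0 : 0 ≤ q := norm_nonneg _
    have hqa : a / 2 ≤ q := by
      refine le_of_sq_le_sq ?_ hq0
      nlinarith
    have hqu : q ≤ 2 := by
      refine le_of_sq_le_sq ?_ (by norm_num)
      nlinarith
    set D : ℝ := ‖1 + exp (inv P)‖ with hD
    have hqD : q ≤ D := by
      refine le_of_sq_le_sq ?_ (norm_nonneg _)
      have h1 := two_mul_le (inv P)
      rw [hLi, hPre] at h1
      rw [hq2]
      linarith
    have hDpos : 0 < D := by linarith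
    have h3 := one_add_exp_ne_zero hτ
    have hexp : ‖(exp (inv P) - e) / (1 + exp (inv P))‖ ≤ 1 + 2 / D := by
      have e1 : (exp (inv P) - e) / (1 + exp (inv P)) =
          1 - (1 + e) / (1 + exp (inv P)) := by
        field_simp
        ring
      rw [e1]
      refine (norm_sub_le _ _).trans ?_
      rw [norm_one, norm_div]
      have e2 : ‖1 + e‖ ≤ 2 := by
        have := norm_add_le (1 : ℂ) e
        rw [norm_one] at this
        linarith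
      have e3 : ‖1 + e‖ / D ≤ 2 / D := div_le_div_of_nonneg_right e2 hDpos.le
      linarith
    have hγ' : ‖(1 + exp ((ψ t : ℂ) * I)) * (((2 * Real.pi - 4 * a : ℝ) : ℂ) * I) +
        ((-p : ℝ) : ℂ)‖ ≤ 9 * q := by
      refine (norm_add_le _ _).trans ?_
      rw [norm_mul, norm_mul, norm_I, mul_one, norm_real, norm_real, Real.norm_eq_abs,
        Real.norm_eq_abs, abs_neg, abs_of_pos hp, abs_of_nonneg hℓ]
      have e1 : q * (2 * Real.pi - 4 * a) ≤ q * 8 :=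
        mul_le_mul_of_nonneg_left (by linarith) hq0
      have e2 : p ≤ q := by nlinarith
      linarith
    calc ‖(exp (inv P) - e) / (1 + exp (inv P))‖ *
        ‖(1 + exp ((ψ t : ℂ) * I)) * (((2 * Real.pi - 4 * a : ℝ) : ℂ) * I) + ((-p : ℝ) : ℂ)‖
        ≤ (1 + 2 / D) * (9 * q) :=
          mul_le_mul hexp hγ' (norm_nonneg _) (by positivity)
      _ = 9 * q + 18 * (q / D) := by ring
      _ ≤ 9 * 2 + 18 * 1 := by
          have e1 : q / D ≤ 1 := (div_le_one hDpos).2 hqD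
          linarith
      _ ≤ 100 := by norm_num

end Pool.Agent.H50.IS
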