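import Mathlib
import Pool.Agent.H50.IS.Defs

/-! Plan (all statements). Not imported by anything. -/

open Complex Set Filter Topology

namespace Pool.Agent.H50.IS.Plan

open Pool.Agent.H50.IS

/-- F (helper91; file `Pool/Agent/H50/IS/Fold.lean`). -/
theorem fold_sharp : ∃ C₁ : ℝ, 100 ≤ C₁ ∧ ∃ a₀ > 0, ∀ a, 0 < a → a ≤ a₀ →
    ∃ (β φ g : ℂ → ℂ) (ζ : ℂ), Fold C₁ a β φ g ζ := by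
  sorry

/-- V (helper7; file `Pool/Agent/H50/IS/Value.lean`); the two constants `δ₁, δ₂` may be changed. -/
theorem value_sharp {C₁ : ℝ} (hC₁ : 100 ≤ C₁) {Λ δ : ℝ} (hδ : δ ≤ 1 / (10000 * C₁ ^ 4))
    {b φ g : ℕ → ℂ → ℂ} {ζ : ℕ → ℂ} {a s M : ℕ → ℝ} (S : Seq C₁ Λ δ b φ g ζ a s M)
    (Bt G : ℂ → ℂ) (k : ℂ)
    (hclose : ∀ n z, 0 < z.re → y a s n / 2 ≤ ‖z‖ → ‖z‖ ≤ 2 * C₁ * s n →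
      ‖Bt z - k - K b n - b n (z / (s n : ℂ))‖ ≤ a n / (1000 * C₁ ^ 3))
    (hreg : ∀ n z, 0 < z.re → y a s (n + 1) / 2 ≤ ‖z‖ → ‖z‖ ≤ y a s n →
      ‖Bt z - k - K b (n + 1) - b (n + 1) (z / (s (n + 1) : ℂ))‖ ≤ 1)
    (hG : ∀ z : ℂ, 0 < z.re → ‖z‖ < 1 → HasDerivAt G (exp (Bt z)) z) :
    ∃ w : ℂ, ∀ n, ∃ z : ℂ, 0 < z.re ∧ ‖z‖ ≤ 2 * C₁ * s n ∧ G z = w := by
  sorry

/-- E (helper35; file `Pool/Agent/H50/IS/Exists.lean`): recursion for the pairs `(s n, M n)`. -/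
theorem exists_seq {C₁ a₀ : ℝ} (hC₁ : 100 ≤ C₁) (ha₀ : 0 < a₀)
    (hF : ∀ a, 0 < a → a ≤ a₀ → ∃ (β φ g : ℂ → ℂ) (ζ : ℂ), Fold C₁ a β φ g ζ)
    {Λ δ R C₃ M₀ : ℝ} (hΛ : 1 ≤ Λ) (hδ : 0 < δ) (hR : 0 < R) (hC₃ : 0 < C₃) (hM₀ : 1 ≤ M₀)
    {lam : ℝ → ℝ} (hlam : Tendsto lam (𝓝[>] 0) atTop) :
    ∃ (b φ g : ℕ → ℂ → ℂ) (ζ : ℕ → ℂ) (a s M : ℕ → ℝ), Seq C₁ Λ δ b φ g ζ a s M ∧ M 0 = M₀ ∧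
      ∀ n v, 0 < v → v ≤ R * s n → C₃ * M n ≤ lam v := by
  sorry

end Pool.Agent.H50.IS.Plan
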